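import Pool.Agent.H68.F7.Dens

/-! From the inequality for seven positions to averages of functions of the type and of the flag. -/

set_option autoImplicit false
set_option maxRecDepth 100000
set_option maxHeartbeats 4000000
open Finset Equiv

namespace Pool.Agent.H68.F9

noncomputable section

open Pool.Agent.H68.F7
open Pool.Agent.Y435.T7 (bt al)
open Pool.Agent.N443 (osum osum_eq mkN mkN_congr mkN_lt bt_mkN codeN act Cl Kp Inv7 Psi gv gv_act sum_act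
  sum_Psi sum7 psd_sum sum_gv_perm card_tuples)

variable {V : Type} [Fintype V] [DecidableEq V] {κ : ℕ}

/-- the data of a certificate; `om` is a function of the type, `ot` a function of the flag -/
structure Cert (κ : ℕ) (F5 F3 : ℕ → ℕ → ℕ → ℕ) (K5 : ℕ → ℕ) (a5 : ℕ → ℕ → ℕ → ℤ) (K3 : ℕ → ℕ) (a3 : ℕ → ℕ → ℕ → ℤ)
    (om : ℕ → ℕ) (ot : ℕ → ℕ → ℕ) (cC B5 B3 : ℕ) : Prop where
  hP : ∀ g, Val κ g → 48 * Psi (GG F5) g + SG (GH F3) g ≤ 48 * cC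
  h5 : ∀ g, Val κ g → (GG F5 g : ℤ) = B5 + om (codeN 10 RM g) + (ot (codeN 10 RM g) (codeN 10 RA g) + ot (codeN 10 RM g) (codeN 10 RB g))
    + ∑ k ∈ range (K5 (codeN 10 RM g)), a5 (codeN 10 RM g) (codeN 10 RA g) k * a5 (codeN 10 RM g) (codeN 10 RB g) k
  h3 : ∀ g, Val κ g → (GH F3 g : ℤ) = B3 + ∑ k ∈ range (K3 (g {0, 1, 2})),
    a3 (g {0, 1, 2}) (codeN 9 Q1 g) k * a3 (g {0, 1, 2}) (codeN 9 Q2 g) k

variable {F5 F3 : ℕ → ℕ → ℕ → ℕ} {K5 : ℕ → ℕ} {a5 : ℕ → ℕ → ℕ → ℤ} {K3 : ℕ → ℕ} {a3 : ℕ → ℕ → ℕ → ℤ} {om : ℕ → ℕ} {ot : ℕ → ℕ → ℕ} {cC B5 B3 : ℕ}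

theorem GG_lower (C : Cert κ F5 F3 K5 a5 K3 a3 om ot cC B5 B3) (hκ : 3 ≤ κ) {H : Finset V → Prop} (h : Free κ H) :
    ∑ u : Fin 7 → V, ((B5 : ℤ) + om (codeN 10 RM (gv H u)) + (ot (codeN 10 RM (gv H u)) (codeN 10 RA (gv H u)) + ot (codeN 10 RM (gv H u)) (codeN 10 RB (gv H u))))
      ≤ ∑ u : Fin 7 → V, (GG F5 (gv H u) : ℤ) := by
  rw [sum7, sum7 (V := V) fun u => (GG F5 (gv H u) : ℤ)]
  refine sum_le_sum fun a _ => sum_le_sum fun b _ => sum_le_sum fun c _ => sum_le_sum fun d _ => sum_le_sum fun e _ => ?_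
  set m := codeN 10 RM (gv H ![a, b, c, d, e, a, a]) with hm
  have e1 : ∀ x y, codeN 10 RM (gv H ![a, b, c, d, e, x, y]) = m := fun x y => code_gv fun j hj i hi => vec5 (hRM j hj i hi)
  have e2 : ∀ x y, codeN 10 RA (gv H ![a, b, c, d, e, x, y]) = codeN 10 RA (gv H ![a, b, c, d, e, x, a]) := fun x y =>
    code_gv fun j hj i hi => vec6 (hRA j hj i hi)
  have e3 : ∀ x y, codeN 10 RB (gv H ![a, b, c, d, e, x, y]) = codeN 10 RA (gv H ![a, b, c, d, e, y, a]) := fun x y => by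
    rw [← RA_s5, gv_act, vecs, e2]
  have h1 : ∀ x y, (GG F5 (gv H ![a, b, c, d, e, x, y]) : ℤ) = ((B5 : ℤ) + om (codeN 10 RM (gv H ![a, b, c, d, e, x, y]))
      + (ot (codeN 10 RM (gv H ![a, b, c, d, e, x, y])) (codeN 10 RA (gv H ![a, b, c, d, e, x, y])) + ot (codeN 10 RM (gv H ![a, b, c, d, e, x, y])) (codeN 10 RB (gv H ![a, b, c, d, e, x, y]))))
      + (0 + ∑ k ∈ range (K5 m),
      a5 m (codeN 10 RA (gv H ![a, b, c, d, e, x, a])) k * a5 m (codeN 10 RA (gv H ![a, b, c, d, e, y, a])) k) := by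
    intro x y
    rw [C.h5 _ (val_gv hκ h _), e1, e2, e3, zero_add]
  have h2 := psd_sum (V := V) 0 (K5 m) fun x k => a5 m (codeN 10 RA (gv H ![a, b, c, d, e, x, a])) k
  simp only [sum_const_zero] at h2
  have h3 : ∑ x, ∑ y, (GG F5 (gv H ![a, b, c, d, e, x, y]) : ℤ) = ∑ x, ∑ y, ((B5 : ℤ) + om (codeN 10 RM (gv H ![a, b, c, d, e, x, y]))
      + (ot (codeN 10 RM (gv H ![a, b, c, d, e, x, y])) (codeN 10 RA (gv H ![a, b, c, d, e, x, y])) + ot (codeN 10 RM (gv H ![a, b, c, d, e, x, y])) (codeN 10 RB (gv H ![a, b, c, d, e, x, y]))))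
      + ∑ x, ∑ y, (0 + ∑ k ∈ range (K5 m),
      a5 m (codeN 10 RA (gv H ![a, b, c, d, e, x, a])) k * a5 m (codeN 10 RA (gv H ![a, b, c, d, e, y, a])) k) := by
    rw [← sum_add_distrib]
    refine sum_congr rfl fun x _ => ?_
    rw [← sum_add_distrib]
    exact sum_congr rfl fun y _ => h1 x y
  rw [h3]
  exact le_add_of_nonneg_right h2

theorem GH_lower (C : Cert κ F5 F3 K5 a5 K3 a3 om ot cC B5 B3) (hκ : 3 ≤ κ) {H : Finset V → Prop} (h : Free κ H) :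
    ∑ _u : Fin 7 → V, (B3 : ℤ) ≤ ∑ u : Fin 7 → V, (GH F3 (gv H u) : ℤ) := by
  rw [sum7, sum7 (V := V) fun u => (GH F3 (gv H u) : ℤ)]
  refine sum_le_sum fun a _ => sum_le_sum fun b _ => sum_le_sum fun c _ => ?_
  set r := gv H ![a, b, c, a, a, a, a] {0, 1, 2} with hr
  have e0 : ∀ d e x y : V, (({0, 1, 2} : Finset (Fin 7)).image ![a, b, c, d, e, x, y] : Finset V) = {a, b, c} := by
    intro d e x y
    rw [image_insert, image_insert, image_singleton]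
    simp
  have e1 : ∀ d e x y, gv H ![a, b, c, d, e, x, y] {0, 1, 2} = r := by
    intro d e x y
    rw [hr]
    unfold gv
    rw [e0, e0]
  have e2 : ∀ d e x y, codeN 9 Q1 (gv H ![a, b, c, d, e, x, y]) = codeN 9 Q1 (gv H ![a, b, c, d, e, a, a]) := fun d e x y =>
    code_gv fun j hj i hi => vec5 (hQ1 j hj i hi)
  have e3 : ∀ d e x y, codeN 9 Q2 (gv H ![a, b, c, d, e, x, y]) = codeN 9 Q1 (gv H ![a, b, c, x, y, a, a]) := fun d e x y => by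
    rw [← Q1_s9, gv_act, vecD, e2]
  have h1 : ∀ d e x y, (GH F3 (gv H ![a, b, c, d, e, x, y]) : ℤ) = (B3 : ℤ) + ∑ k ∈ range (K3 r),
      a3 r (codeN 9 Q1 (gv H ![a, b, c, d, e, a, a])) k * a3 r (codeN 9 Q1 (gv H ![a, b, c, x, y, a, a])) k := by
    intro d e x y
    rw [C.h3 _ (val_gv hκ h _), e1, e2, e3]
  have h2 := psd_sum (V := V × V) (B3 : ℤ) (K3 r) fun p k => a3 r (codeN 9 Q1 (gv H ![a, b, c, p.1, p.2, a, a])) k
  simp only [Fintype.sum_prod_type] at h2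
  refine h2.trans (le_of_eq ?_)
  exact sum_congr rfl fun d _ => sum_congr rfl fun e _ => sum_congr rfl fun x _ => sum_congr rfl fun y _ => (h1 d e x y).symm

/-- the averages of the two functions -/
theorem core (C : Cert κ F5 F3 K5 a5 K3 a3 om ot cC B5 B3) (hκ : 3 ≤ κ) {H : Finset V → Prop} (h : Free κ H) :
    21 * (∑ u : Fin 7 → V, om (codeN 10 RM (gv H u)) + 2 * ∑ u : Fin 7 → V, ot (codeN 10 RM (gv H u)) (codeN 10 RA (gv H u)))
      + (21 * B5 + 105 * B3) * (Fintype.card V) ^ 7 ≤ cC * (Fintype.card V) ^ 7 := by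
  have hU : ∀ c : ℕ, ∑ _u : Fin 7 → V, c = c * (Fintype.card V) ^ 7 := fun c => by
    rw [sum_const, card_univ, Fintype.card_fun, Fintype.card_fin, smul_eq_mul, mul_comm]
  have hZ : ∀ c : ℤ, ∑ _u : Fin 7 → V, c = c * (Fintype.card V : ℤ) ^ 7 := fun c => by
    rw [sum_const, card_univ, Fintype.card_fun, Fintype.card_fin, nsmul_eq_mul, mul_comm]
    push_cast
    rfl
  have h1 : 48 * (21 * ∑ u : Fin 7 → V, GG F5 (gv H u)) + 5040 * ∑ u : Fin 7 → V, GH F3 (gv H u)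
      ≤ 48 * cC * (Fintype.card V) ^ 7 := by
    rw [← sum_Psi, ← sum_SG, ← hU, mul_sum, ← sum_add_distrib]
    exact sum_le_sum fun u _ => C.hP _ (val_gv hκ h u)
  have h2 := GG_lower C hκ h
  have h2' := GH_lower C hκ h
  have hs : ∑ u : Fin 7 → V, (ot (codeN 10 RM (gv H u)) (codeN 10 RB (gv H u)) : ℤ) = ∑ u : Fin 7 → V, (ot (codeN 10 RM (gv H u)) (codeN 10 RA (gv H u)) : ℤ) := by
    have e := sum_act H (swap 5 6 : Perm (Fin 7)) fun g => (ot (codeN 10 RM g) (codeN 10 RA g))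
    have e2 : ∑ u : Fin 7 → V, ot (codeN 10 RM (gv H u)) (codeN 10 RB (gv H u)) = ∑ u : Fin 7 → V, ot (codeN 10 RM (gv H u)) (codeN 10 RA (gv H u)) := by
      rw [← e]
      exact sum_congr rfl fun u _ => by rw [RM_s5, RA_s5]
    exact_mod_cast e2
  have h3 : ∑ u : Fin 7 → V, ((B5 : ℤ) + om (codeN 10 RM (gv H u)) + (ot (codeN 10 RM (gv H u)) (codeN 10 RA (gv H u)) + ot (codeN 10 RM (gv H u)) (codeN 10 RB (gv H u))))
      = B5 * (Fintype.card V : ℤ) ^ 7 + (∑ u : Fin 7 → V, (om (codeN 10 RM (gv H u)) : ℤ) + 2 * ∑ u : Fin 7 → V, (ot (codeN 10 RM (gv H u)) (codeN 10 RA (gv H u)) : ℤ)) := by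
    rw [sum_add_distrib, sum_add_distrib, sum_add_distrib, hZ, hs]
    ring
  rw [hZ] at h2'
  have h4 : (48 : ℤ) * (21 * ∑ u : Fin 7 → V, (GG F5 (gv H u) : ℤ)) + 5040 * ∑ u : Fin 7 → V, (GH F3 (gv H u) : ℤ)
      ≤ 48 * cC * (Fintype.card V : ℤ) ^ 7 := by
    exact_mod_cast h1
  rw [h3] at h2
  have h6 : (21 : ℤ) * (∑ u : Fin 7 → V, (om (codeN 10 RM (gv H u)) : ℤ) + 2 * ∑ u : Fin 7 → V, (ot (codeN 10 RM (gv H u)) (codeN 10 RA (gv H u)) : ℤ))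
      + (21 * B5 + 105 * B3) * (Fintype.card V : ℤ) ^ 7 ≤ cC * (Fintype.card V : ℤ) ^ 7 := by
    linarith
  exact_mod_cast h6

end

end Pool.Agent.H68.F9
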