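import Pool.Agent.H68.F7.Chk
import Pool.Agent.H68.F9.Dens

/-! Checks of the tables for general objective functions. -/

set_option autoImplicit false
set_option maxRecDepth 100000
set_option maxHeartbeats 4000000
set_option exponentiation.threshold 3000000
open Finset Equiv

namespace Pool.Agent.H68.F9

noncomputable section

open Pool.Agent.H68.F7
open Pool.Agent.Y435.T7 (bt sb st cnd al d2 swp enc fld enc_congr enc_zero enc_succ enc_lt enc_add enc_mulc enc_nest enc_inj)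
open Pool.Agent.N443 (st_eq al_true cnd_and run3 run3_enc tot3 phi3 osum osum_eq codeN mkN bt_mkN act Cl Kp Inv7 Psi)

/-- check of the entries of a mask -/
def ckM (BL : ℕ → ℕ → ℕ) (GK cc : ℕ → ℕ) (of : ℕ → ℕ → ℕ) (BX : List (List ℕ × List ℕ)) (OT : ℕ → ℕ) (OM : ℕ) (om : ℕ → ℕ) (B5 DM m : ℕ) : Bool :=
  cnd (Nat.beq (Nat.land (TW BL GK m) (hmn 10 39)) 0)
  (cnd (Nat.beq (Nat.add (TW BL GK m) (osum (fun k => Nat.mul (TK BL m k) (of m k)) (Nat.mul 2 (GK m)))) (Nat.add (Nat.mul (vvN 10 m BX) (cc m)) (OT m)))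
  (cnd (al (Nat.mul 2 (GK m)) (fun k => cnd (Nat.ble (Nat.mul 2 (of m k)) 262143)
    (Nat.beq (Nat.land (Nat.add (TK BL m k) (dn 10 (Nat.sub 262143 (Nat.mul 2 (of m k))))) (hmn 10 18)) 0) false))
  (cnd (Nat.ble (osum (fun k => Nat.mul 2 (Nat.mul (of m k) (of m k))) (Nat.mul 2 (GK m))) 549755813887)
  (cnd (Nat.ble (Nat.mul 2 (Nat.add (cc m) OM)) DM)
    (Nat.beq (Nat.mul 2 (cc m)) (Nat.add (osum (fun k => Nat.mul (of m k) (of m k)) (Nat.mul 2 (GK m))) (Nat.add B5 (om m))))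
  false) false) false) false) false

def ckA (BL : ℕ → ℕ → ℕ) (GK cc : ℕ → ℕ) (iv : ℕ → Bool) (of : ℕ → ℕ → ℕ) (qp iq : ℕ → ℕ → ℕ → ℕ) (BX : List (List ℕ × List ℕ))
    (CL : List (List ℕ)) (OT : ℕ → ℕ) (OM : ℕ) (om : ℕ → ℕ) (B5 DM m : ℕ) : Bool := cnd (iv m) (ckC CL m) (cnd (ckM BL GK cc of BX OT OM om B5 DM m)
  (cnd (ckI BL GK cc of qp iq BX PT0 mi0 0 m) (cnd (ckI BL GK cc of qp iq BX PT1 mi1 1 m) (cnd (ckI BL GK cc of qp iq BX PT2 mi2 2 m)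
  (ckI BL GK cc of qp iq BX PT3 mi3 3 m) false) false) false) false)
def ckB (BL : ℕ → ℕ → ℕ) (GK cc : ℕ → ℕ) (iv : ℕ → Bool) (of : ℕ → ℕ → ℕ) (qp iq : ℕ → ℕ → ℕ → ℕ) (BX : List (List ℕ × List ℕ))
    (CL : List (List ℕ)) (OT : ℕ → ℕ) (OM : ℕ) (om : ℕ → ℕ) (B5 DM n b : ℕ) : Bool :=
  al n (fun j => st (ckA BL GK cc iv of qp iq BX CL OT OM om B5 DM) (Nat.add j b))

variable {BL : ℕ → ℕ → ℕ} {GK cc : ℕ → ℕ} {iv : ℕ → Bool} {of : ℕ → ℕ → ℕ} {qp iq : ℕ → ℕ → ℕ → ℕ} {BX : List (List ℕ × List ℕ)}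
  {CL : List (List ℕ)} {OT : ℕ → ℕ} {OM B5 DM : ℕ} {om : ℕ → ℕ} {ot : ℕ → ℕ → ℕ}

/-- the meaning of a check of a table of columns `U` with constant column `W` -/
structure Spc (K c DM D OM : ℕ) (o : ℕ → ℕ) (N : ℕ) (U : ℕ → ℕ → ℕ) (W v t : ℕ → ℕ) : Prop where
  w39 : ∀ f < N, W f < 2 ^ 39
  rel : ∀ f < N, W f + ∑ k ∈ range K, o k * U f k = c * v f + t f
  u2 : ∀ f < N, ∀ k < K, U f k ≤ 2 * o k
  u18 : ∀ f < N, ∀ k < K, U f k < 2 ^ 18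
  o18 : ∀ k < K, 2 * o k ≤ 262143
  cD : 2 * (c + OM) ≤ DM
  cc : 2 * c = ∑ k ∈ range K, o k * o k + D

theorem spc_of {K c DM D OM n : ℕ} {o : ℕ → ℕ} {U : ℕ → ℕ → ℕ} {W v t : ℕ → ℕ} (hUl : ∀ f k, U f k < 2 ^ 20) (hWl : ∀ f, W f < 2 ^ 40)
    (hv : ∀ f, v f ≤ 1) (hDM : DM < 2 ^ 40) (ht : ∀ f < 2 ^ n, t f ≤ OM)
    (a1 : Nat.land (enc 40 n W) (hmn n 39) = 0)
    (a2 : enc 40 n W + ∑ k ∈ range K, enc 40 n (fun f => U f k) * o k = enc 40 n v * c + enc 40 n t)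
    (a3 : ∀ k < K, 2 * o k ≤ 262143 ∧ Nat.land (enc 40 n (fun f => U f k) + dn n (262143 - 2 * o k)) (hmn n 18) = 0)
    (a4 : ∑ k ∈ range K, 2 * (o k * o k) ≤ 549755813887) (a5 : 2 * (c + OM) ≤ DM) (a6 : 2 * c = ∑ k ∈ range K, o k * o k + D) :
    Spc K c DM D OM o (2 ^ n) U W v t := by
  have b1 : ∀ f < 2 ^ n, W f < 2 ^ 39 := fun f hf => dec_hm (fun f _ => hWl f) (by norm_num) a1 hf
  have b3 : ∀ f < 2 ^ n, ∀ k < K, U f k + (262143 - 2 * o k) < 2 ^ 18 := by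
    intro f hf k hk
    obtain ⟨h1, h2⟩ := a3 k hk
    rw [dn_eq, enc_add] at h2
    refine dec_hm (φ := fun f => U f k + (262143 - 2 * o k)) (fun f _ => ?_) (by norm_num) h2 hf
    have := hUl f k
    show U f k + (262143 - 2 * o k) < 2 ^ 40
    norm_num at this ⊢
    omega
  have c2 : ∀ f < 2 ^ n, ∀ k < K, U f k ≤ 2 * o k := fun f hf k hk => by
    have h1 := b3 f hf k hk
    have h2 := (a3 k hk).1
    norm_num at h1
    omega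
  refine ⟨b1, ?_, c2, fun f hf k hk => ?_, fun k hk => (a3 k hk).1, a5, a6⟩
  · intro f hf
    have e1 : ∀ K, ∑ k ∈ range K, enc 40 n (fun f => U f k) * o k = enc 40 n (fun f => ∑ k ∈ range K, o k * U f k) := by
      intro K
      induction K with
      | zero => simp [enc]
      | succ K ih =>
        rw [sum_range_succ, ih, enc_mulc, enc_add]
        exact enc_congr fun f _ => by rw [sum_range_succ, mul_comm (U f K)]
    rw [e1, enc_add, enc_mulc, enc_add] at a2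
    have h4 := dec (φ := fun f => W f + ∑ k ∈ range K, o k * U f k) (ψ := fun f => v f * c + t f) ?_ ?_ a2 hf
    · rw [mul_comm c]
      exact h4
    · intro f hf
      have hs : ∑ k ∈ range K, o k * U f k ≤ ∑ k ∈ range K, 2 * (o k * o k) := sum_le_sum fun k hk => by
        have := Nat.mul_le_mul_left (o k) (c2 f hf k (mem_range.mp hk))
        calc o k * U f k ≤ o k * (2 * o k) := this
          _ = 2 * (o k * o k) := by ring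
      have h0 := b1 f hf
      show W f + ∑ k ∈ range K, o k * U f k < 2 ^ 40
      norm_num at h0 ⊢
      omega
    · intro f hf
      have h7 : v f * c ≤ 1 * c := Nat.mul_le_mul_right _ (hv f)
      have h8 := ht f hf
      show v f * c + t f < 2 ^ 40
      omega
  · have h1 := b3 f hf k hk
    omega

theorem ckM_spec {m : ℕ} (hDM : DM < 2 ^ 40) (hOT : OT m = enc 40 10 (ot m)) (ht : ∀ f < 1024, ot m f ≤ OM)
    (h : ckM BL GK cc of BX OT OM om B5 DM m = true) :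
    Spc (2 * GK m) (cc m) DM (B5 + om m) OM (of m) (2 ^ 10) (uu BL m) (ww BL GK m) (fun f => vv m f BX) (ot m) := by
  obtain ⟨a1, h⟩ := cnd_and h
  obtain ⟨a2, h⟩ := cnd_and h
  obtain ⟨a3, h⟩ := cnd_and h
  obtain ⟨a4, h⟩ := cnd_and h
  obtain ⟨a5, a6⟩ := cnd_and h
  have b1 := Nat.eq_of_beq_eq_true a1
  rw [TW_eq] at b1
  have b2 := Nat.eq_of_beq_eq_true a2
  rw [TW_eq, osum_eq, vvN_eq] at b2
  have b4 := Nat.le_of_ble_eq_true a4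
  rw [osum_eq] at b4
  have b6 := Nat.eq_of_beq_eq_true a6
  rw [osum_eq] at b6
  refine spc_of (uu_lt m) (ww_lt m) (fun f => vv_le m f BX) hDM ht b1 ?_ ?_ b4 (Nat.le_of_ble_eq_true a5) b6
  · have b2' : enc 40 10 (fun f => ww BL GK m f) + ∑ k ∈ range (2 * GK m), TK BL m k * of m k
        = enc 40 10 (fun f => vv m f BX) * cc m + OT m := b2
    rw [sum_congr rfl (fun k _ => by rw [TK_eq m k] : ∀ k ∈ range (2 * GK m), TK BL m k * of m k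
      = enc 40 10 (fun f => uu BL m f k) * of m k), hOT] at b2'
    exact b2'
  · intro k hk
    have h3 := al_true a3 hk
    obtain ⟨h4, h5⟩ := cnd_and h3
    refine ⟨Nat.le_of_ble_eq_true h4, ?_⟩
    have h6 := Nat.eq_of_beq_eq_true h5
    rw [TK_eq] at h6
    exact h6

theorem val_int {K : ℕ} {o u1 u2 : ℕ → ℕ} {w1 w2 c1 c2 : ℕ} (h1 : w1 + ∑ k ∈ range K, o k * u1 k = c1)
    (h2 : w2 + ∑ k ∈ range K, o k * u2 k = c2) :
    ((∑ k ∈ range K, u1 k * u2 k + (w1 + w2) : ℕ) : ℤ) = c1 + c2 - ∑ k ∈ range K, (o k : ℤ) ^ 2 +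
      ∑ k ∈ range K, ((u1 k : ℤ) - o k) * ((u2 k : ℤ) - o k) := by
  have r1 : (w1 : ℤ) = c1 - ∑ k ∈ range K, (o k : ℤ) * u1 k := by
    have : ((w1 + ∑ k ∈ range K, o k * u1 k : ℕ) : ℤ) = (c1 : ℤ) := by rw [h1]
    push_cast at this
    linarith
  have r2 : (w2 : ℤ) = c2 - ∑ k ∈ range K, (o k : ℤ) * u2 k := by
    have : ((w2 + ∑ k ∈ range K, o k * u2 k : ℕ) : ℤ) = (c2 : ℤ) := by rw [h2]
    push_cast at this
    linarith
  have h3 : ∑ k ∈ range K, ((u1 k : ℤ) - o k) * ((u2 k : ℤ) - o k)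
      = ∑ k ∈ range K, (u1 k : ℤ) * (u2 k : ℤ) - ∑ k ∈ range K, (o k : ℤ) * u1 k
        - ∑ k ∈ range K, (o k : ℤ) * u2 k + ∑ k ∈ range K, (o k : ℤ) ^ 2 := by
    rw [← sum_sub_distrib, ← sum_sub_distrib, ← sum_add_distrib]
    exact sum_congr rfl fun k _ => by ring
  push_cast
  rw [h3, r1, r2]
  ring

/-- signed permutations of the columns preserve the value -/
theorem inv_of {N K c c' DM D D' DM' OM : ℕ} {o o' : ℕ → ℕ} {U U' : ℕ → ℕ → ℕ} {W W' v v' t t' q q' : ℕ → ℕ} {pf : ℕ → ℕ}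
    (S1 : Spc K c DM D OM o N U W v t)
    (S2 : Spc K c' DM' D' OM o' N U' W' v' t') (hc : c' = c) (hpf : ∀ f < N, pf f < N) (hpt : ∀ f < N, t' (pf f) = t f)
    (hQ : ∀ k < K, q k < K ∧ q' (q k) = k ∧ q' k < K ∧ q (q' k) = k)
    (hR : ∀ k < K, o' (q k) = o k ∧ RK N U U' v pf (o k) k (q k)) {f1 f2 : ℕ} (h1 : f1 < N) (h2 : f2 < N)
    (v1 : v f1 = 1) (v2 : v f2 = 1) (w1 : v' (pf f1) = 1) (w2 : v' (pf f2) = 1) :
    (∑ k ∈ range K, U' (pf f1) k * U' (pf f2) k) + (W' (pf f1) + W' (pf f2)) = (∑ k ∈ range K, U f1 k * U f2 k) + (W f1 + W f2) := by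
  have r1 := S1.rel f1 h1
  have r2 := S1.rel f2 h2
  have r3 := S2.rel _ (hpf f1 h1)
  have r4 := S2.rel _ (hpf f2 h2)
  rw [v1, mul_one] at r1
  rw [v2, mul_one] at r2
  rw [w1, mul_one, hpt f1 h1] at r3
  rw [w2, mul_one, hpt f2 h2] at r4
  have g1 := val_int r1 r2
  have g2 := val_int r3 r4
  have hs := val_inv (u1 := U f1) (u2 := U f2) (u1' := U' (pf f1)) (u2' := U' (pf f2)) hQ (fun k hk => by
    obtain ⟨e, r⟩ := hR k hk
    refine ⟨e, ?_⟩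
    rcases r with r | r
    · exact Or.inl ⟨r f1 h1, r f2 h2⟩
    · right
      have a1 := r f1 h1
      have a2 := r f2 h2
      rw [v1, one_mul] at a1
      rw [v2, one_mul] at a2
      exact ⟨a1, a2⟩)
  rw [hc, ← hs.1, ← hs.2, ← g1] at g2
  exact Nat.cast_injective (R := ℤ) g2

/-- the hypotheses on the tables of five roots -/
structure T5 (κ : ℕ) (BL : ℕ → ℕ → ℕ) (GK cc : ℕ → ℕ) (iv : ℕ → Bool) (of : ℕ → ℕ → ℕ) (qp iq : ℕ → ℕ → ℕ → ℕ)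
    (BX : List (List ℕ × List ℕ)) (CL : List (List ℕ)) (OT : ℕ → ℕ) (OM : ℕ) (om : ℕ → ℕ) (ot : ℕ → ℕ → ℕ) (B5 DM : ℕ) : Prop where
  hD : DM < 2 ^ 40
  hOT : ∀ m < 1024, OT m = enc 40 10 (ot m)
  hOM : ∀ m < 1024, ∀ f < 1024, ot m f ≤ OM
  hp0 : ∀ m < 1024, ∀ f < 1024, ot (mi0 m) (pf0 f) = ot m f
  hp1 : ∀ m < 1024, ∀ f < 1024, ot (mi1 m) (pf1 f) = ot m f
  hp2 : ∀ m < 1024, ∀ f < 1024, ot (mi2 m) (pf2 f) = ot m f
  hp3 : ∀ m < 1024, ∀ f < 1024, ot (mi3 m) (pf3 f) = ot m f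
  hA : ∀ m < 1024, ckA BL GK cc iv of qp iq BX CL OT OM om B5 DM m = true
  hC : ∀ l ∈ CL, ∃ P : Finset (Fin 7), P.card = κ ∧ ∀ Q ∈ powersetCard 3 P, ∃ i ∈ l, i < 10 ∧ RM.getD i ∅ = Q
  hXA : ∀ x ∈ BX, ∃ P : Finset (Fin 7), P.card = κ ∧ ∀ Q ∈ powersetCard 3 P,
    (∃ i ∈ x.1, i < 10 ∧ RM.getD i ∅ = Q) ∨ ∃ i ∈ x.2, i < 10 ∧ RA.getD i ∅ = Q
  hXB : ∀ x ∈ BX, ∃ P : Finset (Fin 7), P.card = κ ∧ ∀ Q ∈ powersetCard 3 P,
    (∃ i ∈ x.1, i < 10 ∧ RM.getD i ∅ = Q) ∨ ∃ i ∈ x.2, i < 10 ∧ RB.getD i ∅ = Q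

variable {κ : ℕ}

theorem T5.ivf (T : T5 κ BL GK cc iv of qp iq BX CL OT OM om ot B5 DM) {g : Finset (Fin 7) → ℕ} (hg : Val κ g) :
    iv (codeN 10 RM g) = false := by
  by_contra hne
  rw [Bool.not_eq_false] at hne
  have h := T.hA (codeN 10 RM g) (code_lt (n := 10) (L := RM) hg.1)
  unfold ckA at h
  rw [hne, cnd_t] at h
  obtain ⟨l, hl, h1⟩ := ckC_spec h
  obtain ⟨P, hP, hQ⟩ := T.hC l hl
  obtain ⟨Q, hQ1, h0⟩ := hg.2 P hP
  obtain ⟨i, hi, hi10, rfl⟩ := hQ Q hQ1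
  have h3 : bt i (codeN 10 RM g) = g (RM.getD i ∅) := bt_mkN hi10 fun j => hg.1 _
  rw [h1 i hi, h0] at h3
  exact absurd h3 (by norm_num)

theorem T5.M (T : T5 κ BL GK cc iv of qp iq BX CL OT OM om ot B5 DM) {m : ℕ} (hm : m < 1024) (h : iv m = false) :
    Spc (2 * GK m) (cc m) DM (B5 + om m) OM (of m) (2 ^ 10) (uu BL m) (ww BL GK m) (fun f => vv m f BX) (ot m) ∧
    ckI BL GK cc of qp iq BX PT0 mi0 0 m = true ∧ ckI BL GK cc of qp iq BX PT1 mi1 1 m = true ∧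
    ckI BL GK cc of qp iq BX PT2 mi2 2 m = true ∧ ckI BL GK cc of qp iq BX PT3 mi3 3 m = true := by
  have h1 := T.hA m hm
  unfold ckA at h1
  rw [h, cnd_f] at h1
  obtain ⟨a1, h1⟩ := cnd_and h1
  obtain ⟨a2, h1⟩ := cnd_and h1
  obtain ⟨a3, h1⟩ := cnd_and h1
  obtain ⟨a4, a5⟩ := cnd_and h1
  exact ⟨ckM_spec T.hD (T.hOT m hm) (T.hOM m hm) a1, a2, a3, a4, a5⟩

theorem T5.sm (T : T5 κ BL GK cc iv of qp iq BX CL OT OM om ot B5 DM) : Sm5 BL GK iv := by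
  intro m hm hi f hf
  have h := (T.M hm hi).1
  exact ⟨h.w39 f hf, fun k hk => h.u18 f hf k hk⟩

theorem T5.le (T : T5 κ BL GK cc iv of qp iq BX CL OT OM om ot B5 DM) {m : ℕ} (hm : m < 1024) {f1 f2 : ℕ} (h1 : f1 < 1024)
    (h2 : f2 < 1024) : F5 BL GK iv m f1 f2 ≤ DM := by
  cases hi : iv m
  · rw [F5_false hi]
    have h := (T.M hm hi).1
    have key : ∀ f < 1024, ww BL GK m f + ∑ k ∈ range (2 * GK m), of m k * uu BL m f k ≤ cc m + OM := fun f hf => by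
      rw [h.rel f hf]
      refine Nat.add_le_add ?_ (T.hOM m hm f hf)
      calc _ ≤ cc m * 1 := Nat.mul_le_mul_left _ (vv_le m f BX)
        _ ≤ _ := by rw [mul_one]
    exact (val_le (h.u2 f1 h1) (h.u2 f2 h2) (key f1 h1) (key f2 h2)).trans h.cD
  · rw [F5_true hi]; exact Nat.zero_le _

theorem T5.vA (T : T5 κ BL GK cc iv of qp iq BX CL OT OM om ot B5 DM) {g : Finset (Fin 7) → ℕ} (hg : Val κ g) :
    vv (codeN 10 RM g) (codeN 10 RA g) BX = 1 := by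
  refine vv_one fun x hx => ?_
  obtain ⟨P, hP, hQ⟩ := T.hXA x hx
  obtain ⟨Q, hQ1, h0⟩ := hg.2 P hP
  rcases hQ Q hQ1 with ⟨i, hi, hi10, rfl⟩ | ⟨i, hi, hi10, rfl⟩
  · exact Or.inl ⟨i, hi, (bt_mkN hi10 fun j => hg.1 _).trans h0⟩
  · exact Or.inr ⟨i, hi, (bt_mkN hi10 fun j => hg.1 _).trans h0⟩
theorem T5.vB (T : T5 κ BL GK cc iv of qp iq BX CL OT OM om ot B5 DM) {g : Finset (Fin 7) → ℕ} (hg : Val κ g) :
    vv (codeN 10 RM g) (codeN 10 RB g) BX = 1 := by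
  refine vv_one fun x hx => ?_
  obtain ⟨P, hP, hQ⟩ := T.hXB x hx
  obtain ⟨Q, hQ1, h0⟩ := hg.2 P hP
  rcases hQ Q hQ1 with ⟨i, hi, hi10, rfl⟩ | ⟨i, hi, hi10, rfl⟩
  · exact Or.inl ⟨i, hi, (bt_mkN hi10 fun j => hg.1 _).trans h0⟩
  · exact Or.inr ⟨i, hi, (bt_mkN hi10 fun j => hg.1 _).trans h0⟩

/-- invariance under an exchange of roots -/
theorem T5.step (T : T5 κ BL GK cc iv of qp iq BX CL OT OM om ot B5 DM) {PT pf mi : ℕ → ℕ} {i : ℕ} (hP : PTs 10 PT pf) {τ : Perm (Fin 7)}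
    (hpt : ∀ m < 1024, ∀ f < 1024, ot (mi m) (pf f) = ot m f)
    (hc : ∀ m < 1024, iv m = false → ckI BL GK cc of qp iq BX PT mi i m = true)
    (r1 : ∀ g : Finset (Fin 7) → ℕ, (∀ Q, g Q ≤ 1) → codeN 10 RM (act τ g) = mi (codeN 10 RM g))
    (r2 : ∀ g : Finset (Fin 7) → ℕ, (∀ Q, g Q ≤ 1) → codeN 10 RA (act τ g) = pf (codeN 10 RA g))
    (r3 : ∀ g : Finset (Fin 7) → ℕ, (∀ Q, g Q ≤ 1) → codeN 10 RB (act τ g) = pf (codeN 10 RB g)) :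
    Kp (Val κ) (GG (F5 BL GK iv)) τ := by
  intro g hg
  have hg' := Val_cl κ g hg τ
  have i1 := T.ivf hg
  have i2 := T.ivf hg'
  have a1 := T.vA hg'
  have b1 := T.vB hg'
  have hm := code_lt (n := 10) (L := RM) hg.1
  have hm' := code_lt (n := 10) (L := RM) hg'.1
  rw [r1 g hg.1] at i2 hm'
  rw [r1 g hg.1, r2 g hg.1] at a1
  rw [r1 g hg.1, r3 g hg.1] at b1
  unfold GG
  rw [r1 g hg.1, r2 g hg.1, r3 g hg.1, F5_false i1, F5_false i2]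
  have s1 := (T.M hm i1).1
  have s2 := (T.M hm' i2).1
  obtain ⟨e1, e2, hQ, hR⟩ := ckI_spec (hc _ hm i1) hP s1.o18
  rw [e1] at s2 ⊢
  exact inv_of s1 s2 e2 hP.2 (hpt _ hm) hQ hR (code_lt hg.1) (code_lt hg.1) (T.vA hg) (T.vB hg) a1 b1

theorem T5.inv7 (T : T5 κ BL GK cc iv of qp iq BX CL OT OM om ot B5 DM) : Inv7 (Val κ) (GG (F5 BL GK iv)) := by
  refine ⟨Val_cl κ, ?_, ?_, ?_, ?_, ?_⟩
  · exact T.step PTs0 T.hp0 (fun m hm h => (T.M hm h).2.1) (fun g => RM_s0) (fun g => RA_s0) (fun g => RB_s0)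
  · exact T.step PTs1 T.hp1 (fun m hm h => (T.M hm h).2.2.1) (fun g => RM_s1) (fun g => RA_s1) (fun g => RB_s1)
  · exact T.step PTs2 T.hp2 (fun m hm h => (T.M hm h).2.2.2.1) (fun g => RM_s2) (fun g => RA_s2) (fun g => RB_s2)
  · exact T.step PTs3 T.hp3 (fun m hm h => (T.M hm h).2.2.2.2) (fun g => RM_s3) (fun g => RA_s3) (fun g => RB_s3)
  · intro g _
    unfold GG
    rw [RM_s5, RA_s5, RB_s5, F5_comm]

theorem T5.val (T : T5 κ BL GK cc iv of qp iq BX CL OT OM om ot B5 DM) {g : Finset (Fin 7) → ℕ} (hg : Val κ g) :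
    (GG (F5 BL GK iv) g : ℤ) = B5 + om (codeN 10 RM g) + (ot (codeN 10 RM g) (codeN 10 RA g) + ot (codeN 10 RM g) (codeN 10 RB g))
    + ∑ k ∈ range (2 * GK (codeN 10 RM g)),
    ((uu BL (codeN 10 RM g) (codeN 10 RA g) k : ℤ) - of (codeN 10 RM g) k) * ((uu BL (codeN 10 RM g) (codeN 10 RB g) k : ℤ) - of (codeN 10 RM g) k) := by
  have hm := code_lt (n := 10) (L := RM) hg.1
  have s := (T.M hm (T.ivf hg)).1
  have r1 := s.rel _ (code_lt (L := RA) hg.1)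
  have r2 := s.rel _ (code_lt (L := RB) hg.1)
  rw [T.vA hg, mul_one] at r1
  rw [T.vB hg, mul_one] at r2
  have h := val_int r1 r2
  unfold GG
  rw [F5_false (T.ivf hg), h]
  have hc : ((2 * cc (codeN 10 RM g) : ℕ) : ℤ) = ((∑ k ∈ range (2 * GK (codeN 10 RM g)), of (codeN 10 RM g) k * of (codeN 10 RM g) k
      + (B5 + om (codeN 10 RM g)) : ℕ) : ℤ) := by rw [s.cc]
  push_cast at hc ⊢
  have e : ∑ k ∈ range (2 * GK (codeN 10 RM g)), (of (codeN 10 RM g) k : ℤ) ^ 2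
      = ∑ k ∈ range (2 * GK (codeN 10 RM g)), (of (codeN 10 RM g) k : ℤ) * (of (codeN 10 RM g) k : ℤ) :=
    sum_congr rfl fun k _ => sq _
  rw [e]
  linarith

variable {TG : ℕ → ℕ → ℕ} {G3 cc3 : ℕ → ℕ} {of3 : ℕ → ℕ → ℕ} {qp3 iq3 : ℕ → ℕ → ℕ → ℕ} {BX3 : List (List ℕ × List ℕ)} {B3 DM3 : ℕ}

/-- the whole certificate -/
theorem cert_of (T : T5 κ BL GK cc iv of qp iq BX CL OT OM om ot B5 DM) (T' : T3 κ TG G3 cc3 of3 qp3 iq3 BX3 B3 DM3)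
    (reps : List ℕ) (BP : List (List ℕ × Finset (Fin 7))) {cC : ℕ}
    (hcov : Pool.Agent.N443.cov 20 reps WL (BP.map Prod.fst) = true) (hlt : ∀ c ∈ reps, c < 2 ^ 20)
    (hBP : ∀ x ∈ BP, x.2.card = κ ∧ ∀ Q ∈ powersetCard 3 x.2, ∃ i ∈ x.1, i < 20 ∧ CQ.getD i ∅ = Q)
    (hD5 : DM ≤ 2 ^ 34) (hD3 : DM3 ≤ 2 ^ 33) (hD : 21 * DM + 105 * DM3 + (549755813887 - cC) < 2 ^ 40) (hC : cC ≤ 549755813887)
    (hk : ∀ c ∈ reps, chk BL GK iv TG G3 cC c = true) :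
    Cert κ (F5 BL GK iv) (F3 TG G3) (fun m => 2 * GK m) (fun m f k => (uu BL m f k : ℤ) - of m k) (fun b => 2 * G3 b)
      (fun b f k => (vu TG b f k : ℤ) - of3 b k) om ot cC B5 B3 := by
  refine ⟨fun g hg => ?_, fun g hg => T.val hg, fun g hg => T'.val hg⟩
  exact all_of T.inv7 T'.inv3 reps BP hcov hlt hBP (fun c hc i hi => chk_spec (BK_eq T.sm T'.sm T'.hT)
    (fun m hm f1 h1 f2 h2 => T.le hm h1 h2) (fun b hb f1 h1 f2 h2 => T'.le hb h1 h2) hD5 hD3 hD hC (hk c hc) hi) hg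

end

end Pool.Agent.H68.F9
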