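import Pool.Agent.H68.F9.Obj

/-! Checks of the table of the objective function. -/

set_option autoImplicit false
set_option maxRecDepth 100000
open Finset

namespace Pool.Agent.H68.F9

open Pool.Agent.H68.F7 (pf0 pf1 pf2 pf3)
open Pool.Agent.Y435.T7 (bt cnd al enc fld enc_congr enc_fld)
open Pool.Agent.N443 (st_eq al_true cnd_and)

theorem OT_eq {Q : ℕ → ℕ} {OT : ℕ} (h1 : Nat.blt OT (Nat.pow 2 40960) = true) (h2 : ckT Q OT = true) : OT = enc 40 10 (q5 Q) := by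
  have h0 : OT < 2 ^ (40 * 2 ^ 10) := by
    have h := Nat.le_of_ble_eq_true h1
    exact h
  calc OT = enc 40 10 (fld 40 OT) := (enc_fld (by norm_num) h0).symm
    _ = enc 40 10 (q5 Q) := enc_congr fun f hf => by
      have h := Nat.eq_of_beq_eq_true (al_true h2 (show f < 1024 from hf))
      rw [← h]
      show OT / 2 ^ (40 * f) % 2 ^ 40 = (OT >>> (40 * f)) &&& 1099511627775
      rw [show (1099511627775 : ℕ) = 2 ^ 40 - 1 from rfl, Nat.and_two_pow_sub_one_eq_mod, Nat.shiftRight_eq_div_pow]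

theorem OT_zero {OT : ℕ} (h : OT = 0) : OT = enc 40 10 (fun _ => 0) := by
  subst h
  simp [enc]

/-- all the values are at most `OM` -/
def ckO (Q : ℕ → ℕ) (OM : ℕ) : Bool := al 1024 (fun f => Nat.ble (q5 Q f) OM)
/-- the table is preserved by the exchanges of roots -/
def ckP (Q : ℕ → ℕ) : Bool := al 1024 (fun f => cnd (Nat.beq (q5 Q (pf0 f)) (q5 Q f)) (cnd (Nat.beq (q5 Q (pf1 f)) (q5 Q f))
  (cnd (Nat.beq (q5 Q (pf2 f)) (q5 Q f)) (Nat.beq (q5 Q (pf3 f)) (q5 Q f)) false) false) false)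

theorem OM_le {Q : ℕ → ℕ} {OM : ℕ} (h : ckO Q OM = true) : ∀ f < 1024, q5 Q f ≤ OM := fun _ hf => Nat.le_of_ble_eq_true (al_true h hf)

theorem P_eq {Q : ℕ → ℕ} (h : ckP Q = true) : (∀ f < 1024, q5 Q (pf0 f) = q5 Q f) ∧ (∀ f < 1024, q5 Q (pf1 f) = q5 Q f) ∧
    (∀ f < 1024, q5 Q (pf2 f) = q5 Q f) ∧ (∀ f < 1024, q5 Q (pf3 f) = q5 Q f) := by
  refine ⟨fun f hf => ?_, fun f hf => ?_, fun f hf => ?_, fun f hf => ?_⟩ <;>
  · obtain ⟨a1, a2⟩ := cnd_and (al_true h hf)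
    obtain ⟨a3, a4⟩ := cnd_and a2
    obtain ⟨a5, a6⟩ := cnd_and a4
    first
      | exact Nat.eq_of_beq_eq_true a1
      | exact Nat.eq_of_beq_eq_true a3
      | exact Nat.eq_of_beq_eq_true a5
      | exact Nat.eq_of_beq_eq_true a6

end Pool.Agent.H68.F9
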