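import Pool.Agent.H68.F9.Chk
import Pool.Graph.R_seed8.H122R2.N6.Lp

/-! The objective functions: functions of the codegrees. -/

set_option autoImplicit false
set_option maxRecDepth 100000
set_option maxHeartbeats 4000000
open Finset Equiv

namespace Pool.Agent.H68.F9

noncomputable section

open Pool.Agent.H68.F7
open Pool.Agent.Y435.T7 (bt al)
open Pool.Agent.N443 (osum osum_eq mkN mkN_congr mkN_lt bt_mkN codeN act Cl Kp Inv7 Psi gv gv_act sum_act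
  sum_Psi sum7 psd_sum sum_gv_perm card_tuples)

variable {V : Type} [Fintype V] [DecidableEq V] {κ : ℕ}

/-- the sum of the values at the degrees of the five roots in the link of the extra vertex -/
def q5 (Q : ℕ → ℕ) (f : ℕ) : ℕ :=
  Q (bt 0 f + bt 4 f + (bt 5 f + bt 7 f)) + Q (bt 1 f + bt 4 f + (bt 6 f + bt 8 f)) + Q (bt 2 f + bt 6 f + (bt 5 f + bt 9 f))
    + Q (bt 3 f + bt 8 f + (bt 9 f + bt 7 f)) + Q (bt 0 f + bt 1 f + (bt 2 f + bt 3 f))

/-- the term of the first root -/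
def t0 (Q : ℕ → ℕ) (g : Finset (Fin 7) → ℕ) : ℕ := Q (g {0, 4, 5} + g {0, 1, 5} + (g {0, 2, 5} + g {0, 3, 5}))

theorem q5_eq (Q : ℕ → ℕ) {g : Finset (Fin 7) → ℕ} (hg : ∀ S, g S ≤ 1) :
    q5 Q (codeN 10 RA g) = t0 Q g + t0 Q (act (swap 0 1) g) + t0 Q (act (swap 0 2) g) + t0 Q (act (swap 0 3) g)
      + t0 Q (act (swap 0 4) g) := by
  have hb : ∀ i < 10, bt i (codeN 10 RA g) = g (RA.getD i ∅) := fun i hi => bt_mkN hi fun j => hg _
  unfold q5 t0 act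
  rw [hb 0 (by norm_num), hb 1 (by norm_num), hb 2 (by norm_num), hb 3 (by norm_num), hb 4 (by norm_num), hb 5 (by norm_num),
    hb 6 (by norm_num), hb 7 (by norm_num), hb 8 (by norm_num), hb 9 (by norm_num)]
  have r0 : RA.getD 0 ∅ = ({0, 4, 5} : Finset (Fin 7)) := by decide +kernel
  have r1 : RA.getD 1 ∅ = ({1, 4, 5} : Finset (Fin 7)) := by decide +kernel
  have r2 : RA.getD 2 ∅ = ({2, 4, 5} : Finset (Fin 7)) := by decide +kernel
  have r3 : RA.getD 3 ∅ = ({3, 4, 5} : Finset (Fin 7)) := by decide +kernel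
  have r4 : RA.getD 4 ∅ = ({0, 1, 5} : Finset (Fin 7)) := by decide +kernel
  have r5 : RA.getD 5 ∅ = ({0, 2, 5} : Finset (Fin 7)) := by decide +kernel
  have r6 : RA.getD 6 ∅ = ({1, 2, 5} : Finset (Fin 7)) := by decide +kernel
  have r7 : RA.getD 7 ∅ = ({0, 3, 5} : Finset (Fin 7)) := by decide +kernel
  have r8 : RA.getD 8 ∅ = ({1, 3, 5} : Finset (Fin 7)) := by decide +kernel
  have r9 : RA.getD 9 ∅ = ({2, 3, 5} : Finset (Fin 7)) := by decide +kernel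
  rw [r0, r1, r2, r3, r4, r5, r6, r7, r8, r9]
  have i1 : ({0, 4, 5} : Finset (Fin 7)).image (swap 0 1 : Perm (Fin 7)) = {1, 4, 5} ∧
    ({0, 1, 5} : Finset (Fin 7)).image (swap 0 1 : Perm (Fin 7)) = {0, 1, 5} ∧
    ({0, 2, 5} : Finset (Fin 7)).image (swap 0 1 : Perm (Fin 7)) = {1, 2, 5} ∧
    ({0, 3, 5} : Finset (Fin 7)).image (swap 0 1 : Perm (Fin 7)) = {1, 3, 5} := by decide +kernel
  have i2 : ({0, 4, 5} : Finset (Fin 7)).image (swap 0 2 : Perm (Fin 7)) = {2, 4, 5} ∧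
    ({0, 1, 5} : Finset (Fin 7)).image (swap 0 2 : Perm (Fin 7)) = {1, 2, 5} ∧
    ({0, 2, 5} : Finset (Fin 7)).image (swap 0 2 : Perm (Fin 7)) = {0, 2, 5} ∧
    ({0, 3, 5} : Finset (Fin 7)).image (swap 0 2 : Perm (Fin 7)) = {2, 3, 5} := by decide +kernel
  have i3 : ({0, 4, 5} : Finset (Fin 7)).image (swap 0 3 : Perm (Fin 7)) = {3, 4, 5} ∧
    ({0, 1, 5} : Finset (Fin 7)).image (swap 0 3 : Perm (Fin 7)) = {1, 3, 5} ∧
    ({0, 2, 5} : Finset (Fin 7)).image (swap 0 3 : Perm (Fin 7)) = {2, 3, 5} ∧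
    ({0, 3, 5} : Finset (Fin 7)).image (swap 0 3 : Perm (Fin 7)) = {0, 3, 5} := by decide +kernel
  have i4 : ({0, 4, 5} : Finset (Fin 7)).image (swap 0 4 : Perm (Fin 7)) = {0, 4, 5} ∧
    ({0, 1, 5} : Finset (Fin 7)).image (swap 0 4 : Perm (Fin 7)) = {1, 4, 5} ∧
    ({0, 2, 5} : Finset (Fin 7)).image (swap 0 4 : Perm (Fin 7)) = {2, 4, 5} ∧
    ({0, 3, 5} : Finset (Fin 7)).image (swap 0 4 : Perm (Fin 7)) = {3, 4, 5} := by decide +kernel
  rw [i1.1, i1.2.1, i1.2.2.1, i1.2.2.2, i2.1, i2.2.1, i2.2.2.1, i2.2.2.2, i3.1, i3.2.1, i3.2.2.1, i3.2.2.2,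
    i4.1, i4.2.1, i4.2.2.1, i4.2.2.2]

omit [Fintype V] in
theorem gv_le (H : Finset V → Prop) (u : Fin 7 → V) (S : Finset (Fin 7)) : gv H u S ≤ 1 := by
  unfold gv; split_ifs <;> norm_num

theorem sum_q5 (Q : ℕ → ℕ) (H : Finset V → Prop) :
    ∑ u : Fin 7 → V, q5 Q (codeN 10 RA (gv H u)) = 5 * ∑ u : Fin 7 → V, t0 Q (gv H u) := by
  rw [sum_congr rfl fun u _ => q5_eq Q (gv_le H u), sum_add_distrib, sum_add_distrib, sum_add_distrib, sum_add_distrib,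
    sum_act H (swap 0 1 : Perm (Fin 7)) (t0 Q), sum_act H (swap 0 2 : Perm (Fin 7)) (t0 Q),
    sum_act H (swap 0 3 : Perm (Fin 7)) (t0 Q), sum_act H (swap 0 4 : Perm (Fin 7)) (t0 Q)]
  ring

/-- the indicator of the edges -/
def E3 (H : Finset V → Prop) (a b c : V) : ℕ := gv H ![a, b, c, a, a, a, a] {0, 1, 2}

omit [Fintype V] in
theorem gv_E3 (H : Finset V → Prop) (u : Fin 7 → V) (i j k : Fin 7) : gv H u {i, j, k} = E3 H (u i) (u j) (u k) := by
  have h1 : (({i, j, k} : Finset (Fin 7)).image u : Finset V) = {u i, u j, u k} := by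
    rw [image_insert, image_insert, image_singleton]
  have h2 : (({0, 1, 2} : Finset (Fin 7)).image ![u i, u j, u k, u i, u i, u i, u i] : Finset V) = {u i, u j, u k} := by
    rw [image_insert, image_insert, image_singleton]
    simp
  unfold E3 gv
  rw [h1, h2]

omit [Fintype V] in
theorem E3_comm (H : Finset V → Prop) (a b c : V) : E3 H a b c = E3 H a c b := by
  have h1 : (({0, 1, 2} : Finset (Fin 7)).image ![a, b, c, a, a, a, a] : Finset V) = {a, b, c} := by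
    rw [image_insert, image_insert, image_singleton]
    simp
  have h2 : (({0, 1, 2} : Finset (Fin 7)).image ![a, c, b, a, a, a, a] : Finset V) = {a, b, c} := by
    rw [image_insert, image_insert, image_singleton, pair_comm b c]
    simp
  unfold E3 gv
  rw [h1, h2]

omit [Fintype V] in
theorem t0_vec (Q : ℕ → ℕ) (H : Finset V → Prop) (a b c d e x y : V) :
    t0 Q (gv H ![a, b, c, d, e, x, y]) = Q (E3 H a x e + E3 H a x b + (E3 H a x c + E3 H a x d)) := by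
  unfold t0
  rw [gv_E3, gv_E3, gv_E3, gv_E3, E3_comm H a x e, E3_comm H a x b, E3_comm H a x c, E3_comm H a x d]
  rfl

omit [DecidableEq V] in
theorem reord (G : V → V → V → V → V → ℕ) : ∑ b, ∑ c, ∑ d, ∑ e, ∑ x, G x e b c d = ∑ x, ∑ e, ∑ b, ∑ c, ∑ d, G x e b c d := by
  calc ∑ b, ∑ c, ∑ d, ∑ e, ∑ x, G x e b c d
      = ∑ b, ∑ c, ∑ d, ∑ x, ∑ e, G x e b c d :=
        sum_congr rfl fun b _ => sum_congr rfl fun c _ => sum_congr rfl fun d _ => sum_comm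
    _ = ∑ b, ∑ c, ∑ x, ∑ d, ∑ e, G x e b c d := sum_congr rfl fun b _ => sum_congr rfl fun c _ => sum_comm
    _ = ∑ b, ∑ x, ∑ c, ∑ d, ∑ e, G x e b c d := sum_congr rfl fun b _ => sum_comm
    _ = ∑ x, ∑ b, ∑ c, ∑ d, ∑ e, G x e b c d := sum_comm
    _ = ∑ x, ∑ b, ∑ c, ∑ e, ∑ d, G x e b c d :=
        sum_congr rfl fun x _ => sum_congr rfl fun b _ => sum_congr rfl fun c _ => sum_comm
    _ = ∑ x, ∑ b, ∑ e, ∑ c, ∑ d, G x e b c d := sum_congr rfl fun x _ => sum_congr rfl fun b _ => sum_comm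
    _ = ∑ x, ∑ e, ∑ b, ∑ c, ∑ d, G x e b c d := sum_congr rfl fun x _ => sum_comm

theorem sum_t0 (Q : ℕ → ℕ) (H : Finset V → Prop) :
    ∑ u : Fin 7 → V, t0 Q (gv H u) = Fintype.card V * ∑ a, ∑ x, ∑ e, ∑ b, ∑ c, ∑ d, Q (E3 H a x e + E3 H a x b + (E3 H a x c + E3 H a x d)) := by
  rw [sum7, mul_sum]
  refine sum_congr rfl fun a _ => ?_
  have e1 : ∀ b c d e x : V, ∑ y, t0 Q (gv H ![a, b, c, d, e, x, y]) =
      Fintype.card V * Q (E3 H a x e + E3 H a x b + (E3 H a x c + E3 H a x d)) := by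
    intro b c d e x
    rw [sum_congr rfl fun y _ => t0_vec Q H a b c d e x y, sum_const, card_univ, smul_eq_mul]
  rw [sum_congr rfl fun b _ => sum_congr rfl fun c _ => sum_congr rfl fun d _ => sum_congr rfl fun e _ => sum_congr rfl fun x _ =>
    e1 b c d e x]
  rw [reord fun x e b c d => Fintype.card V * Q (E3 H a x e + E3 H a x b + (E3 H a x c + E3 H a x d))]
  rw [mul_sum]
  refine sum_congr rfl fun x _ => ?_
  rw [mul_sum]
  refine sum_congr rfl fun e _ => ?_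
  rw [mul_sum]
  refine sum_congr rfl fun b _ => ?_
  rw [mul_sum]
  refine sum_congr rfl fun c _ => ?_
  rw [mul_sum]

/-- check of the objective table -/
def ckT (Q : ℕ → ℕ) (OT : ℕ) : Bool := al 1024 (fun f => Nat.beq (Nat.land (Nat.shiftRight OT (Nat.mul 40 f)) 1099511627775) (q5 Q f))

variable {F5 F3 : ℕ → ℕ → ℕ → ℕ} {K5 : ℕ → ℕ} {a5 : ℕ → ℕ → ℕ → ℤ} {K3 : ℕ → ℕ} {a3 : ℕ → ℕ → ℕ → ℤ} {cC B5 B3 : ℕ}

/-- the bound for a function of the codegrees -/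
theorem codeg (Q : ℕ → ℕ) (C : Cert 4 F5 F3 K5 a5 K3 a3 (fun _ => 0) (fun _ => q5 Q) cC B5 B3) {H : Finset V → Prop} (h : Free 4 H)
    (hn : 0 < Fintype.card V) :
    45 * Pool.Agent.H122R2.N6.T2 (E3 H) (fun k => 14 * (Q k : ℤ)) ≤ (3 * ((cC : ℤ) - 21 * B5 - 105 * B3)) * (Fintype.card V : ℤ) ^ 6 := by
  have h1 := core C (by norm_num) h
  rw [sum_q5, sum_t0, sum_const_zero, zero_add] at h1
  have e : Pool.Agent.H122R2.N6.T2 (E3 H) (fun k => 14 * (Q k : ℤ)) =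
      14 * ((∑ a, ∑ x, ∑ e, ∑ b, ∑ c, ∑ d, Q (E3 H a x e + E3 H a x b + (E3 H a x c + E3 H a x d)) : ℕ) : ℤ) := by
    unfold Pool.Agent.H122R2.N6.T2
    rw [Nat.cast_sum, mul_sum]
    refine sum_congr rfl fun a _ => ?_
    rw [Nat.cast_sum, mul_sum]
    refine sum_congr rfl fun x _ => ?_
    rw [Nat.cast_sum, mul_sum]
    refine sum_congr rfl fun e _ => ?_
    rw [Nat.cast_sum, mul_sum]
    refine sum_congr rfl fun b _ => ?_
    rw [Nat.cast_sum, mul_sum]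
    refine sum_congr rfl fun c _ => ?_
    rw [Nat.cast_sum, mul_sum]
  rw [e]
  set T := ∑ a, ∑ x, ∑ e, ∑ b, ∑ c, ∑ d, Q (E3 H a x e + E3 H a x b + (E3 H a x c + E3 H a x d)) with hT
  have h2 : (21 : ℤ) * (2 * (5 * ((Fintype.card V : ℤ) * T))) + (21 * B5 + 105 * B3) * (Fintype.card V : ℤ) ^ 7
      ≤ cC * (Fintype.card V : ℤ) ^ 7 := by exact_mod_cast h1
  have hn' : (0 : ℤ) < Fintype.card V := by exact_mod_cast hn
  have h3 : (Fintype.card V : ℤ) * (45 * (14 * (T : ℤ))) ≤ (Fintype.card V : ℤ) * ((3 * ((cC : ℤ) - 21 * B5 - 105 * B3)) * (Fintype.card V : ℤ) ^ 6) := by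
    have h4 : (Fintype.card V : ℤ) ^ 7 = Fintype.card V * (Fintype.card V : ℤ) ^ 6 := by ring
    rw [h4] at h2
    linarith
  exact le_of_mul_le_mul_left h3 hn'

end

end Pool.Agent.H68.F9
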