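import Pool.Agent.H68.F9.Obj

/-! The objective function: edges minus a multiple of the number of quadruples with one edge. -/

set_option autoImplicit false
set_option maxRecDepth 100000
set_option maxHeartbeats 4000000
open Finset Equiv

namespace Pool.Agent.H68.F9

noncomputable section

open Pool.Agent.H68.F7
open Pool.Agent.Y435.T7 (bt al cnd)
open Pool.Agent.N443 (osum osum_eq mkN mkN_congr mkN_lt bt_mkN codeN act Cl Kp Inv7 Psi gv gv_act sum_act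
  sum_Psi sum7 psd_sum sum_gv_perm card_tuples)

variable {V : Type} [Fintype V] [DecidableEq V] {κ : ℕ}

/-- the indicator of the number one -/
def z1 (s : ℕ) : ℕ := cnd (Nat.beq s 1) 1 0

theorem z1_eq (s : ℕ) : z1 s = if s = 1 then 1 else 0 := by
  unfold z1
  by_cases h : s = 1
  · rw [if_pos h, h]; rfl
  · rw [if_neg h]
    have : Nat.beq s 1 = false := by
      rw [Bool.eq_false_iff]
      intro h'
      exact h (Nat.eq_of_beq_eq_true h')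
    rw [this]; rfl

theorem z1_le (s : ℕ) : z1 s ≤ 1 := by rw [z1_eq]; split_ifs <;> omega

/-- number of quadruples of roots with one edge -/
def n5 (m : ℕ) : ℕ := z1 (bt 0 m + bt 1 m + (bt 2 m + bt 3 m)) + z1 (bt 0 m + bt 4 m + (bt 5 m + bt 6 m))
  + z1 (bt 1 m + bt 4 m + (bt 7 m + bt 8 m)) + z1 (bt 2 m + bt 5 m + (bt 7 m + bt 9 m)) + z1 (bt 3 m + bt 6 m + (bt 8 m + bt 9 m))

/-- the objective function of the type -/
def omP (a b m : ℕ) : ℕ := a * pc m + b * (5 - n5 m)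

theorem n5_le (m : ℕ) : n5 m ≤ 5 := by
  unfold n5
  have h := z1_le
  have h1 := h (bt 0 m + bt 1 m + (bt 2 m + bt 3 m))
  have h2 := h (bt 0 m + bt 4 m + (bt 5 m + bt 6 m))
  have h3 := h (bt 1 m + bt 4 m + (bt 7 m + bt 8 m))
  have h4 := h (bt 2 m + bt 5 m + (bt 7 m + bt 9 m))
  have h5 := h (bt 3 m + bt 6 m + (bt 8 m + bt 9 m))
  omega

/-- the term of the first four roots -/
def q0 (g : Finset (Fin 7) → ℕ) : ℕ := z1 (g {0, 1, 2} + g {0, 1, 3} + (g {0, 2, 3} + g {1, 2, 3}))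

theorem n5_eq {g : Finset (Fin 7) → ℕ} (hg : ∀ S, g S ≤ 1) :
    n5 (codeN 10 RM g) = q0 g + q0 (act (swap 3 4) g) + q0 (act (swap 2 4) g) + q0 (act (swap 1 4) g) + q0 (act (swap 0 4) g) := by
  have hb : ∀ i < 10, bt i (codeN 10 RM g) = g (RM.getD i ∅) := fun i hi => bt_mkN hi fun j => hg _
  unfold n5 q0 act
  rw [hb 0 (by norm_num), hb 1 (by norm_num), hb 2 (by norm_num), hb 3 (by norm_num), hb 4 (by norm_num), hb 5 (by norm_num),
    hb 6 (by norm_num), hb 7 (by norm_num), hb 8 (by norm_num), hb 9 (by norm_num)]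
  have r0 : RM.getD 0 ∅ = ({0, 1, 2} : Finset (Fin 7)) := by decide +kernel
  have r1 : RM.getD 1 ∅ = ({0, 1, 3} : Finset (Fin 7)) := by decide +kernel
  have r2 : RM.getD 2 ∅ = ({0, 2, 3} : Finset (Fin 7)) := by decide +kernel
  have r3 : RM.getD 3 ∅ = ({1, 2, 3} : Finset (Fin 7)) := by decide +kernel
  have r4 : RM.getD 4 ∅ = ({0, 1, 4} : Finset (Fin 7)) := by decide +kernel
  have r5 : RM.getD 5 ∅ = ({0, 2, 4} : Finset (Fin 7)) := by decide +kernel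
  have r6 : RM.getD 6 ∅ = ({1, 2, 4} : Finset (Fin 7)) := by decide +kernel
  have r7 : RM.getD 7 ∅ = ({0, 3, 4} : Finset (Fin 7)) := by decide +kernel
  have r8 : RM.getD 8 ∅ = ({1, 3, 4} : Finset (Fin 7)) := by decide +kernel
  have r9 : RM.getD 9 ∅ = ({2, 3, 4} : Finset (Fin 7)) := by decide +kernel
  rw [r0, r1, r2, r3, r4, r5, r6, r7, r8, r9]
  have i1 : ({0, 1, 2} : Finset (Fin 7)).image (swap 3 4 : Perm (Fin 7)) = {0, 1, 2} ∧
    ({0, 1, 3} : Finset (Fin 7)).image (swap 3 4 : Perm (Fin 7)) = {0, 1, 4} ∧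
    ({0, 2, 3} : Finset (Fin 7)).image (swap 3 4 : Perm (Fin 7)) = {0, 2, 4} ∧
    ({1, 2, 3} : Finset (Fin 7)).image (swap 3 4 : Perm (Fin 7)) = {1, 2, 4} := by decide +kernel
  have i2 : ({0, 1, 2} : Finset (Fin 7)).image (swap 2 4 : Perm (Fin 7)) = {0, 1, 4} ∧
    ({0, 1, 3} : Finset (Fin 7)).image (swap 2 4 : Perm (Fin 7)) = {0, 1, 3} ∧
    ({0, 2, 3} : Finset (Fin 7)).image (swap 2 4 : Perm (Fin 7)) = {0, 3, 4} ∧
    ({1, 2, 3} : Finset (Fin 7)).image (swap 2 4 : Perm (Fin 7)) = {1, 3, 4} := by decide +kernel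
  have i3 : ({0, 1, 2} : Finset (Fin 7)).image (swap 1 4 : Perm (Fin 7)) = {0, 2, 4} ∧
    ({0, 1, 3} : Finset (Fin 7)).image (swap 1 4 : Perm (Fin 7)) = {0, 3, 4} ∧
    ({0, 2, 3} : Finset (Fin 7)).image (swap 1 4 : Perm (Fin 7)) = {0, 2, 3} ∧
    ({1, 2, 3} : Finset (Fin 7)).image (swap 1 4 : Perm (Fin 7)) = {2, 3, 4} := by decide +kernel
  have i4 : ({0, 1, 2} : Finset (Fin 7)).image (swap 0 4 : Perm (Fin 7)) = {1, 2, 4} ∧
    ({0, 1, 3} : Finset (Fin 7)).image (swap 0 4 : Perm (Fin 7)) = {1, 3, 4} ∧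
    ({0, 2, 3} : Finset (Fin 7)).image (swap 0 4 : Perm (Fin 7)) = {2, 3, 4} ∧
    ({1, 2, 3} : Finset (Fin 7)).image (swap 0 4 : Perm (Fin 7)) = {1, 2, 3} := by decide +kernel
  rw [i1.1, i1.2.1, i1.2.2.1, i1.2.2.2, i2.1, i2.2.1, i2.2.2.1, i2.2.2.2, i3.1, i3.2.1, i3.2.2.1, i3.2.2.2,
    i4.1, i4.2.1, i4.2.2.1, i4.2.2.2]
  have e1 : g {0, 1, 4} + g {0, 1, 3} + (g {0, 3, 4} + g {1, 3, 4}) = g {0, 1, 3} + g {0, 1, 4} + (g {0, 3, 4} + g {1, 3, 4}) := by ring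
  have e2 : g {0, 2, 4} + g {0, 3, 4} + (g {0, 2, 3} + g {2, 3, 4}) = g {0, 2, 3} + g {0, 2, 4} + (g {0, 3, 4} + g {2, 3, 4}) := by ring
  have e3 : g {1, 2, 4} + g {1, 3, 4} + (g {2, 3, 4} + g {1, 2, 3}) = g {1, 2, 3} + g {1, 2, 4} + (g {1, 3, 4} + g {2, 3, 4}) := by ring
  rw [e1, e2, e3]

theorem sum_n5 (H : Finset V → Prop) :
    ∑ u : Fin 7 → V, n5 (codeN 10 RM (gv H u)) = 5 * ∑ u : Fin 7 → V, q0 (gv H u) := by
  rw [sum_congr rfl fun u _ => n5_eq (gv_le H u), sum_add_distrib, sum_add_distrib, sum_add_distrib, sum_add_distrib,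
    sum_act H (swap 3 4 : Perm (Fin 7)) q0, sum_act H (swap 2 4 : Perm (Fin 7)) q0,
    sum_act H (swap 1 4 : Perm (Fin 7)) q0, sum_act H (swap 0 4 : Perm (Fin 7)) q0]
  ring

omit [Fintype V] in
theorem q0_vec (H : Finset V → Prop) (a b c d e x y : V) :
    q0 (gv H ![a, b, c, d, e, x, y]) = z1 (E3 H a b c + E3 H a b d + (E3 H a c d + E3 H b c d)) := by
  unfold q0
  rw [gv_E3, gv_E3, gv_E3, gv_E3]
  rfl

theorem sum_q0 (H : Finset V → Prop) :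
    ∑ u : Fin 7 → V, q0 (gv H u) = (Fintype.card V) ^ 3 * ∑ a, ∑ b, ∑ c, ∑ d, z1 (E3 H a b c + E3 H a b d + (E3 H a c d + E3 H b c d)) := by
  rw [sum7, mul_sum]
  refine sum_congr rfl fun a _ => ?_
  rw [mul_sum]
  refine sum_congr rfl fun b _ => ?_
  rw [mul_sum]
  refine sum_congr rfl fun c _ => ?_
  rw [mul_sum]
  refine sum_congr rfl fun d _ => ?_
  rw [sum_congr rfl fun e _ => sum_congr rfl fun x _ => sum_congr rfl fun y _ => q0_vec H a b c d e x y,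
    sum_const, sum_const, sum_const, card_univ, smul_eq_mul, smul_eq_mul, smul_eq_mul]
  ring

theorem sum_g (H : Finset V → Prop) :
    ∑ u : Fin 7 → V, gv H u {0, 1, 2} = (Fintype.card V) ^ 4 * ∑ a, ∑ b, ∑ c, E3 H a b c := by
  rw [sum7, mul_sum]
  refine sum_congr rfl fun a _ => ?_
  rw [mul_sum]
  refine sum_congr rfl fun b _ => ?_
  rw [mul_sum]
  refine sum_congr rfl fun c _ => ?_
  have e1 : ∀ d e x y : V, gv H ![a, b, c, d, e, x, y] {0, 1, 2} = E3 H a b c := fun d e x y => by rw [gv_E3]; rfl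
  rw [sum_congr rfl fun d _ => sum_congr rfl fun e _ => sum_congr rfl fun x _ => sum_congr rfl fun y _ => e1 d e x y,
    sum_const, sum_const, sum_const, sum_const, card_univ, smul_eq_mul, smul_eq_mul, smul_eq_mul, smul_eq_mul]
  ring

variable {F5 F3 : ℕ → ℕ → ℕ → ℕ} {K5 : ℕ → ℕ} {a5 : ℕ → ℕ → ℕ → ℤ} {K3 : ℕ → ℕ} {a3 : ℕ → ℕ → ℕ → ℤ} {cC B5 B3 : ℕ}

/-- the bound for edges and quadruples with one edge -/
theorem onee (a b : ℕ) (C : Cert 4 F5 F3 K5 a5 K3 a3 (omP a b) (fun _ _ => 0) cC B5 B3) {H : Finset V → Prop} (h : Free 4 H)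
    (hn : 0 < Fintype.card V) :
    210 * a * (Fintype.card V : ℤ) * ((∑ x, ∑ y, ∑ z, E3 H x y z : ℕ) : ℤ) ≤ ((cC : ℤ) - 21 * B5 - 105 * B3 - 105 * b) * (Fintype.card V : ℤ) ^ 4
      + 105 * b * ((∑ x, ∑ y, ∑ z, ∑ w, z1 (E3 H x y z + E3 H x y w + (E3 H x z w + E3 H y z w)) : ℕ) : ℤ) := by
  have h1 := core C (by norm_num) h
  simp only [sum_const_zero, mul_zero, add_zero] at h1
  have h2 : ∑ u : Fin 7 → V, omP a b (codeN 10 RM (gv H u)) + b * (5 * ∑ u : Fin 7 → V, q0 (gv H u))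
      = a * (10 * ∑ u : Fin 7 → V, gv H u {0, 1, 2}) + b * (5 * (Fintype.card V) ^ 7) := by
    rw [← sum_n5, ← pc_sum, mul_sum, mul_sum, ← sum_add_distrib]
    have hU : 5 * (Fintype.card V) ^ 7 = ∑ _u : Fin 7 → V, 5 := by
      rw [sum_const, card_univ, Fintype.card_fun, Fintype.card_fin, smul_eq_mul, mul_comm]
    rw [hU, mul_sum, ← sum_add_distrib]
    refine sum_congr rfl fun u _ => ?_
    unfold omP
    have := n5_le (codeN 10 RM (gv H u))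
    have e : b * (5 - n5 (codeN 10 RM (gv H u))) + b * n5 (codeN 10 RM (gv H u)) = b * 5 := by
      rw [← mul_add]
      congr 1
      omega
    omega
  rw [sum_q0, sum_g] at h2
  set T := ∑ x, ∑ y, ∑ z, ∑ w, z1 (E3 H x y z + E3 H x y w + (E3 H x z w + E3 H y z w)) with hT
  set E := ∑ x, ∑ y, ∑ z, E3 H x y z with hE
  set S := ∑ u : Fin 7 → V, omP a b (codeN 10 RM (gv H u)) with hS
  have h3 : (21 : ℤ) * S + (21 * B5 + 105 * B3) * (Fintype.card V : ℤ) ^ 7 ≤ cC * (Fintype.card V : ℤ) ^ 7 := by exact_mod_cast h1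
  have h4 : (S : ℤ) + b * (5 * ((Fintype.card V : ℤ) ^ 3 * T)) = a * (10 * ((Fintype.card V : ℤ) ^ 4 * E)) + b * (5 * (Fintype.card V : ℤ) ^ 7) := by
    exact_mod_cast h2
  have hn' : (0 : ℤ) < (Fintype.card V : ℤ) ^ 3 := by
    have : (0 : ℤ) < Fintype.card V := by exact_mod_cast hn
    positivity
  refine le_of_mul_le_mul_left ?_ hn'
  have h5 : (S : ℤ) = a * (10 * ((Fintype.card V : ℤ) ^ 4 * E)) + b * (5 * (Fintype.card V : ℤ) ^ 7) - b * (5 * ((Fintype.card V : ℤ) ^ 3 * T)) := by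
    linarith
  rw [h5] at h3
  have e1 : (Fintype.card V : ℤ) ^ 3 * (210 * a * (Fintype.card V : ℤ) * (E : ℤ)) = 21 * (a * (10 * ((Fintype.card V : ℤ) ^ 4 * E))) := by ring
  have e2 : (Fintype.card V : ℤ) ^ 3 * (((cC : ℤ) - 21 * B5 - 105 * B3 - 105 * b) * (Fintype.card V : ℤ) ^ 4 + 105 * b * (T : ℤ))
      = cC * (Fintype.card V : ℤ) ^ 7 - (21 * B5 + 105 * B3) * (Fintype.card V : ℤ) ^ 7 - 21 * (b * (5 * (Fintype.card V : ℤ) ^ 7))
        + 21 * (b * (5 * ((Fintype.card V : ℤ) ^ 3 * T))) := by ring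
  rw [e1, e2]
  linarith

end

end Pool.Agent.H68.F9
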