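import Mathlib

/-! Tuples of distinct vertices against sets. -/

set_option autoImplicit false
open Finset

namespace Pool.Agent.H68.F9

variable {V : Type} [Fintype V] [DecidableEq V]

theorem tup_le {k : ℕ} (G : Finset (Finset V)) (hG : ∀ A ∈ G, A.card = k) :
    (univ.filter fun v : Fin k → V => univ.image v ∈ G).card ≤ k.factorial * G.card := by
  classical
  have hsub : (univ.filter fun v : Fin k → V => univ.image v ∈ G) ⊆
      G.biUnion (fun A => (univ : Finset (Fin k ↪ A)).image (fun e i => (e i : V))) := by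
    intro v hv
    have hv' := (mem_filter.mp hv).2
    rw [mem_biUnion]
    refine ⟨univ.image v, hv', ?_⟩
    rw [mem_image]
    have hinj : Function.Injective v := by
      have h1 := hG _ hv'
      have h2 : (univ.image v).card = (univ : Finset (Fin k)).card := by rw [h1, card_univ, Fintype.card_fin]
      exact Set.injOn_univ.mp (by simpa using card_image_iff.mp h2)
    exact ⟨⟨fun i => ⟨v i, mem_image_of_mem _ (mem_univ _)⟩, fun i j h => hinj (Subtype.ext_iff.mp h)⟩, mem_univ _, rfl⟩
  refine (card_le_card hsub).trans (card_biUnion_le.trans ?_)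
  have h3 : ∀ A ∈ G, ((univ : Finset (Fin k ↪ A)).image (fun e i => (e i : V))).card ≤ k.factorial := by
    intro A hA
    refine card_image_le.trans (le_of_eq ?_)
    rw [card_univ, Fintype.card_embedding_eq, Fintype.card_coe, hG A hA, Fintype.card_fin, Nat.descFactorial_self]
  refine (sum_le_sum h3).trans (le_of_eq ?_)
  rw [sum_const, smul_eq_mul, mul_comm]

theorem sum4 {M : Type} [AddCommMonoid M] (f : (Fin 4 → V) → M) :
    ∑ u, f u = ∑ a, ∑ b, ∑ c, ∑ d, f ![a, b, c, d] := by
  let e : (Fin 4 → V) ≃ V × V × V × V :=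
    { toFun := fun u => (u 0, u 1, u 2, u 3)
      invFun := fun p => ![p.1, p.2.1, p.2.2.1, p.2.2.2]
      left_inv := by intro u; funext i; fin_cases i <;> rfl
      right_inv := by rintro ⟨a, b, c, d⟩; rfl }
  rw [Fintype.sum_equiv e f (fun p => f (e.symm p)) fun u => by rw [Equiv.symm_apply_apply]]
  simp only [Fintype.sum_prod_type]
  rfl

theorem sum6 {M : Type} [AddCommMonoid M] (f : (Fin 6 → V) → M) :
    ∑ u, f u = ∑ a, ∑ b, ∑ c, ∑ d, ∑ x, ∑ y, f ![a, b, c, d, x, y] := by
  let e : (Fin 6 → V) ≃ V × V × V × V × V × V :=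
    { toFun := fun u => (u 0, u 1, u 2, u 3, u 4, u 5)
      invFun := fun p => ![p.1, p.2.1, p.2.2.1, p.2.2.2.1, p.2.2.2.2.1, p.2.2.2.2.2]
      left_inv := by intro u; funext i; fin_cases i <;> rfl
      right_inv := by rintro ⟨a, b, c, d, x, y⟩; rfl }
  rw [Fintype.sum_equiv e f (fun p => f (e.symm p)) fun u => by rw [Equiv.symm_apply_apply]]
  simp only [Fintype.sum_prod_type]
  rfl

end Pool.Agent.H68.F9
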