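import Pool.Agent.H68.F9.One
import Pool.Agent.H68.F9.Tup

/-! The objective function: edges minus a multiple of the number of copies of a six-vertex 3-graph. -/

set_option autoImplicit false
set_option maxRecDepth 100000
set_option maxHeartbeats 4000000
open Finset Equiv

namespace Pool.Agent.H68.F9

noncomputable section

open Pool.Agent.H68.F7
open Pool.Agent.Y435.T7 (bt al cnd enc fld enc_congr enc_zero enc_succ enc_lt enc_add enc_mulc enc_fld)
open Pool.Agent.N443 (osum osum_eq mkN mkN_congr mkN_lt bt_mkN codeN act Cl Kp Inv7 Psi gv gv_act sum_act al_true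
  sum_Psi sum7 psd_sum sum_gv_perm card_tuples st_eq cnd_and)

/-- membership of a pair in a list -/
def mb (m f : ℕ) (L : List (ℕ × ℕ)) : Bool :=
  @List.rec (ℕ × ℕ) (fun _ => Bool) false (fun x _ ih => cnd (Nat.beq x.1 m) (cnd (Nat.beq x.2 f) true ih) ih) L

/-- the sum of the powers for the pairs with a given first entry -/
def xw (m : ℕ) (L : List (ℕ × ℕ)) : ℕ :=
  @List.rec (ℕ × ℕ) (fun _ => ℕ) 0 (fun x _ ih => cnd (Nat.beq x.1 m) (Nat.add (Nat.pow 2 (Nat.mul 40 x.2)) ih) ih) L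

/-- the objective function of a flag -/
def otW (c : ℕ) (L : List (ℕ × ℕ)) (m f : ℕ) : ℕ := cnd (mb m f L) 0 c
/-- its table -/
def OTW (c : ℕ) (L : List (ℕ × ℕ)) (m : ℕ) : ℕ := Nat.mul c (Nat.sub (dn 10 1) (xw m L))

theorem beq_ne {a b : ℕ} (h : a ≠ b) : Nat.beq a b = false := by
  rw [Bool.eq_false_iff]
  intro h'
  exact h (Nat.eq_of_beq_eq_true h')

theorem beq_self (a : ℕ) : Nat.beq a a = true := Nat.beq_refl a

theorem mb_iff {m f : ℕ} {L : List (ℕ × ℕ)} : mb m f L = true ↔ (m, f) ∈ L := by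
  induction L with
  | nil => exact ⟨fun h => absurd (show false = true from h) (by decide), fun h => absurd h List.not_mem_nil⟩
  | cons x L ih =>
    have e : mb m f (x :: L) = cnd (Nat.beq x.1 m) (cnd (Nat.beq x.2 f) true (mb m f L)) (mb m f L) := rfl
    rw [e, List.mem_cons]
    by_cases h1 : x.1 = m
    · by_cases h2 : x.2 = f
      · rw [h1, h2, beq_self, beq_self, cnd_t, cnd_t]
        refine ⟨fun _ => Or.inl ?_, fun _ => rfl⟩
        rw [← h1, ← h2]
      · rw [h1, beq_self, beq_ne h2, cnd_t, cnd_f, ih]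
        refine ⟨fun h => Or.inr h, fun h => ?_⟩
        rcases h with h | h
        · exact absurd (congrArg Prod.snd h).symm h2
        · exact h
    · rw [beq_ne h1, cnd_f, ih]
      refine ⟨fun h => Or.inr h, fun h => ?_⟩
      rcases h with h | h
      · exact absurd (congrArg Prod.fst h).symm h1
      · exact h

theorem enc_single {b : ℕ} (hb : b < 1024) : enc 40 10 (fun f => if f = b then 1 else 0) = 2 ^ (40 * b) := by
  unfold enc
  rw [sum_eq_single b]
  · beta_reduce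
    rw [if_pos rfl, one_mul]
  · intro i _ hi
    beta_reduce
    rw [if_neg hi, zero_mul]
  · intro h
    exact absurd (mem_range.mpr (show b < 2 ^ 10 from hb)) h

theorem xw_eq {L : List (ℕ × ℕ)} (hnd : L.Nodup) (hL : ∀ x ∈ L, x.2 < 1024) (m : ℕ) :
    xw m L = enc 40 10 (fun f => if (m, f) ∈ L then 1 else 0) := by
  induction L with
  | nil =>
    show 0 = _
    unfold enc
    rw [eq_comm]
    exact sum_eq_zero fun i _ => by beta_reduce; rw [if_neg List.not_mem_nil, zero_mul]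
  | cons x L ih =>
    have e : xw m (x :: L) = cnd (Nat.beq x.1 m) (Nat.add (Nat.pow 2 (Nat.mul 40 x.2)) (xw m L)) (xw m L) := rfl
    have ih' := ih (List.nodup_cons.mp hnd).2 fun y hy => hL y (List.mem_cons_of_mem _ hy)
    have hx := (List.nodup_cons.mp hnd).1
    rw [e]
    by_cases h1 : x.1 = m
    · rw [h1, beq_self, cnd_t, ih']
      have h2 : Nat.pow 2 (Nat.mul 40 x.2) = enc 40 10 (fun f => if f = x.2 then 1 else 0) :=
        (enc_single (hL x List.mem_cons_self)).symm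
      rw [h2]
      show enc 40 10 _ + enc 40 10 _ = _
      rw [enc_add]
      refine enc_congr fun f _ => ?_
      by_cases h3 : f = x.2
      · have h4 : (m, f) = x := by rw [h3, ← h1]
        rw [if_pos h3, h4, if_neg hx, if_pos List.mem_cons_self]
      · have h4 : (m, f) ≠ x := fun h => h3 (congrArg Prod.snd h)
        rw [if_neg h3, zero_add]
        by_cases h5 : (m, f) ∈ L
        · rw [if_pos h5, if_pos (List.mem_cons_of_mem _ h5)]
        · rw [if_neg h5, if_neg]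
          intro h6
          rcases List.mem_cons.mp h6 with h6 | h6
          · exact h4 h6
          · exact h5 h6
    · rw [beq_ne h1, cnd_f, ih']
      refine enc_congr fun f _ => ?_
      have h4 : (m, f) ≠ x := fun h => h1 (congrArg Prod.fst h).symm
      by_cases h5 : (m, f) ∈ L
      · rw [if_pos h5, if_pos (List.mem_cons_of_mem _ h5)]
      · rw [if_neg h5, if_neg]
        intro h6
        rcases List.mem_cons.mp h6 with h6 | h6
        · exact h4 h6
        · exact h5 h6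

theorem otW_eq (c : ℕ) (L : List (ℕ × ℕ)) (m f : ℕ) : otW c L m f = (if (m, f) ∈ L then 0 else 1) * c := by
  unfold otW
  by_cases h : (m, f) ∈ L
  · rw [if_pos h, mb_iff.mpr h, cnd_t, zero_mul]
  · have h' : mb m f L = false := by
      rw [Bool.eq_false_iff]
      exact fun h' => h (mb_iff.mp h')
    rw [if_neg h, h', cnd_f, one_mul]

theorem OTW_eq {c : ℕ} {L : List (ℕ × ℕ)} (hnd : L.Nodup) (hL : ∀ x ∈ L, x.2 < 1024) (m : ℕ) :
    OTW c L m = enc 40 10 (otW c L m) := by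
  unfold OTW
  rw [xw_eq hnd hL]
  have h1 : dn 10 1 = enc 40 10 (fun f => if (m, f) ∈ L then 0 else 1) + enc 40 10 (fun f => if (m, f) ∈ L then 1 else 0) := by
    rw [dn_eq, enc_add]
    refine enc_congr fun f _ => ?_
    split_ifs <;> rfl
  have h2 : Nat.sub (dn 10 1) (enc 40 10 (fun f => if (m, f) ∈ L then 1 else 0)) = enc 40 10 (fun f => if (m, f) ∈ L then 0 else 1) := by
    rw [h1]
    exact Nat.add_sub_cancel _ _
  rw [h2]
  show c * _ = _
  rw [mul_comm, enc_mulc]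
  exact enc_congr fun f _ => (otW_eq c L m f).symm

theorem otW_le (c : ℕ) (L : List (ℕ × ℕ)) (m f : ℕ) : otW c L m f ≤ c := by
  rw [otW_eq]
  split_ifs
  · rw [zero_mul]; exact Nat.zero_le _
  · rw [one_mul]

/-- the list is preserved by a pair of maps -/
def clo (mi pf : ℕ → ℕ) (L0 L : List (ℕ × ℕ)) : Bool :=
  @List.rec (ℕ × ℕ) (fun _ => Bool) true (fun x _ ih => cnd (mb (mi x.1) (pf x.2) L0) ih false) L

theorem clo_spec {mi pf : ℕ → ℕ} {L0 L : List (ℕ × ℕ)} (h : clo mi pf L0 L = true) : ∀ x ∈ L, (mi x.1, pf x.2) ∈ L0 := by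
  induction L with
  | nil => intro x hx; exact absurd hx List.not_mem_nil
  | cons y L ih =>
    obtain ⟨h1, h2⟩ := cnd_and (show cnd (mb (mi y.1) (pf y.2) L0) (clo mi pf L0 L) false = true from h)
    intro x hx
    rcases List.mem_cons.mp hx with rfl | hx
    · exact mb_iff.mp h1
    · exact ih h2 x hx

theorem otW_inv {c : ℕ} {mi pf : ℕ → ℕ} {L : List (ℕ × ℕ)} (hc : clo mi pf L L = true)
    (hm : al 1024 (fun m => Nat.beq (mi (mi m)) m) = true) (hf : al 1024 (fun m => Nat.beq (pf (pf m)) m) = true) :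
    ∀ m < 1024, ∀ f < 1024, otW c L (mi m) (pf f) = otW c L m f := by
  intro m hm' f hf'
  have h0 := clo_spec hc
  rw [otW_eq, otW_eq]
  congr 1
  by_cases h : (m, f) ∈ L
  · rw [if_pos h, if_pos (h0 _ h)]
  · rw [if_neg h, if_neg]
    intro h1
    have h2 := h0 _ h1
    have e1 : mi (mi m) = m := Nat.eq_of_beq_eq_true (al_true hm hm')
    have e2 : pf (pf f) = f := Nat.eq_of_beq_eq_true (al_true hf hf')
    simp only [e1, e2] at h2
    exact h h2

theorem im0 : al 1024 (fun m => Nat.beq (mi0 (mi0 m)) m) = true := by decide +kernel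
theorem im1 : al 1024 (fun m => Nat.beq (mi1 (mi1 m)) m) = true := by decide +kernel
theorem im2 : al 1024 (fun m => Nat.beq (mi2 (mi2 m)) m) = true := by decide +kernel
theorem im3 : al 1024 (fun m => Nat.beq (mi3 (mi3 m)) m) = true := by decide +kernel
theorem ip0 : al 1024 (fun m => Nat.beq (pf0 (pf0 m)) m) = true := by decide +kernel
theorem ip1 : al 1024 (fun m => Nat.beq (pf1 (pf1 m)) m) = true := by decide +kernel
theorem ip2 : al 1024 (fun m => Nat.beq (pf2 (pf2 m)) m) = true := by decide +kernel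
theorem ip3 : al 1024 (fun m => Nat.beq (pf3 (pf3 m)) m) = true := by decide +kernel

variable {V : Type} [Fintype V] [DecidableEq V]

open Classical in
/-- the indicator of the patterns in a list -/
def i6 (L : List (ℕ × ℕ)) (g : Finset (Fin 7) → ℕ) : ℕ := if (codeN 10 RM g, codeN 10 RA g) ∈ L then 1 else 0

theorem sum_otW (c : ℕ) (L : List (ℕ × ℕ)) (H : Finset V → Prop) :
    ∑ u : Fin 7 → V, otW c L (codeN 10 RM (gv H u)) (codeN 10 RA (gv H u)) + c * ∑ u : Fin 7 → V, i6 L (gv H u) = c * (Fintype.card V) ^ 7 := by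
  have hU : c * (Fintype.card V) ^ 7 = ∑ _u : Fin 7 → V, c := by
    rw [sum_const, card_univ, Fintype.card_fun, Fintype.card_fin, smul_eq_mul, mul_comm]
  rw [hU, mul_sum, ← sum_add_distrib]
  refine sum_congr rfl fun u _ => ?_
  rw [otW_eq]
  unfold i6
  by_cases h : (codeN 10 RM (gv H u), codeN 10 RA (gv H u)) ∈ L
  · rw [if_pos h, if_pos h]; ring
  · rw [if_neg h, if_neg h]; ring

omit [Fintype V] in
theorem i6_vec (L : List (ℕ × ℕ)) (H : Finset V → Prop) (a b c d e x y : V) :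
    i6 L (gv H ![a, b, c, d, e, x, y]) = i6 L (gv H ![a, b, c, d, e, x, a]) := by
  have e1 : codeN 10 RM (gv H ![a, b, c, d, e, x, y]) = codeN 10 RM (gv H ![a, b, c, d, e, x, a]) :=
    code_gv fun j hj i hi => vec6 (lt_trans (hRM j hj i hi) (by norm_num))
  have e2 : codeN 10 RA (gv H ![a, b, c, d, e, x, y]) = codeN 10 RA (gv H ![a, b, c, d, e, x, a]) :=
    code_gv fun j hj i hi => vec6 (hRA j hj i hi)
  unfold i6
  rw [e1, e2]

/-- the number of the sextuples with a pattern in a list -/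
def T6 (L : List (ℕ × ℕ)) (H : Finset V → Prop) : ℕ :=
  ∑ a, ∑ b, ∑ c, ∑ d, ∑ e, ∑ x, i6 L (gv H ![a, b, c, d, e, x, a])

theorem sum_i6 (L : List (ℕ × ℕ)) (H : Finset V → Prop) : ∑ u : Fin 7 → V, i6 L (gv H u) = Fintype.card V * T6 L H := by
  unfold T6
  rw [sum7, mul_sum]
  refine sum_congr rfl fun a _ => ?_
  rw [mul_sum]
  refine sum_congr rfl fun b _ => ?_
  rw [mul_sum]
  refine sum_congr rfl fun c _ => ?_
  rw [mul_sum]
  refine sum_congr rfl fun d _ => ?_
  rw [mul_sum]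
  refine sum_congr rfl fun e _ => ?_
  rw [mul_sum]
  refine sum_congr rfl fun x _ => ?_
  rw [sum_congr rfl fun y _ => i6_vec L H a b c d e x y, sum_const, card_univ, smul_eq_mul]

variable {F5 F3 : ℕ → ℕ → ℕ → ℕ} {K5 : ℕ → ℕ} {a5 : ℕ → ℕ → ℕ → ℤ} {K3 : ℕ → ℕ} {a3 : ℕ → ℕ → ℕ → ℤ} {cC B5 B3 : ℕ}

/-- the bound for edges and sextuples -/
theorem sixe (a c : ℕ) (L : List (ℕ × ℕ)) (C : Cert 4 F5 F3 K5 a5 K3 a3 (fun m => a * pc m) (otW c L) cC B5 B3)
    {H : Finset V → Prop} (h : Free 4 H) (hn : 0 < Fintype.card V) :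
    210 * a * (Fintype.card V : ℤ) ^ 3 * ((∑ x, ∑ y, ∑ z, E3 H x y z : ℕ) : ℤ) ≤
      ((cC : ℤ) - 21 * B5 - 105 * B3 - 42 * c) * (Fintype.card V : ℤ) ^ 6 + 42 * c * (T6 L H : ℤ) := by
  have h1 := core C (by norm_num) h
  have h2 := sum_otW c L H
  rw [sum_i6] at h2
  have h3 : ∑ u : Fin 7 → V, a * pc (codeN 10 RM (gv H u)) = a * (10 * ((Fintype.card V) ^ 4 * ∑ x, ∑ y, ∑ z, E3 H x y z)) := by
    rw [← mul_sum, pc_sum, sum_g]
  rw [h3] at h1
  set T := T6 L H with hT
  set E := ∑ x, ∑ y, ∑ z, E3 H x y z with hE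
  set S := ∑ u : Fin 7 → V, otW c L (codeN 10 RM (gv H u)) (codeN 10 RA (gv H u)) with hS
  have h4 : (21 : ℤ) * (a * (10 * ((Fintype.card V : ℤ) ^ 4 * E)) + 2 * S) + (21 * B5 + 105 * B3) * (Fintype.card V : ℤ) ^ 7
      ≤ cC * (Fintype.card V : ℤ) ^ 7 := by exact_mod_cast h1
  have h5 : (S : ℤ) + c * ((Fintype.card V : ℤ) * T) = c * (Fintype.card V : ℤ) ^ 7 := by exact_mod_cast h2
  have hn' : (0 : ℤ) < (Fintype.card V : ℤ) := by exact_mod_cast hn
  refine le_of_mul_le_mul_left ?_ hn'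
  have h6 : (S : ℤ) = c * (Fintype.card V : ℤ) ^ 7 - c * ((Fintype.card V : ℤ) * T) := by linarith
  rw [h6] at h4
  have e1 : (Fintype.card V : ℤ) * (210 * a * (Fintype.card V : ℤ) ^ 3 * (E : ℤ)) = 21 * (a * (10 * ((Fintype.card V : ℤ) ^ 4 * E))) := by ring
  have e2 : (Fintype.card V : ℤ) * (((cC : ℤ) - 21 * B5 - 105 * B3 - 42 * c) * (Fintype.card V : ℤ) ^ 6 + 42 * c * (T : ℤ))
      = cC * (Fintype.card V : ℤ) ^ 7 - (21 * B5 + 105 * B3) * (Fintype.card V : ℤ) ^ 7
        - 42 * (c * (Fintype.card V : ℤ) ^ 7 - c * ((Fintype.card V : ℤ) * T)) := by ring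
  rw [e1, e2]
  linarith

/-- a six-element set carries an induced copy -/
def IsCopy (W : Finset (Finset (Fin 6))) (H : Finset V → Prop) (S : Finset V) : Prop :=
  ∃ φ : Fin 6 → V, Function.Injective φ ∧ univ.image φ = S ∧ ∀ t ∈ powersetCard 3 (univ : Finset (Fin 6)), (H (t.image φ) ↔ t ∈ W)

/-- the meaning of an entry of the list: the pattern is the image of `W` under a permutation -/
def Ent (W : Finset (Finset (Fin 6))) (x : (ℕ × ℕ) × (Fin 6 → Fin 6)) : Prop :=
  (∀ i j : Fin 6, x.2 i = x.2 j → i = j) ∧ ∀ t ∈ powersetCard 3 (univ : Finset (Fin 6)),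
    (∃ i < 10, (t.image x.2).image Fin.castSucc = RM.getD i ∅ ∧ (Nat.beq (bt i x.1.1) 1 = true ↔ t ∈ W)) ∨
    (∃ i < 10, (t.image x.2).image Fin.castSucc = RA.getD i ∅ ∧ (Nat.beq (bt i x.1.2) 1 = true ↔ t ∈ W))

omit [Fintype V] in
theorem copy_of {W : Finset (Finset (Fin 6))} (h3 : ∀ t ∈ W, t.card = 3)
    (hcov : ∀ i j : Fin 6, i ≠ j → ∃ t ∈ W, i ∈ t ∧ j ∈ t) {L : List ((ℕ × ℕ) × (Fin 6 → Fin 6))} (hL : ∀ x ∈ L, Ent W x)
    {H : Finset V → Prop} (hH : ∀ Q, H Q → Q.card = 3) (u : Fin 7 → V)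
    (hu : (codeN 10 RM (gv H u), codeN 10 RA (gv H u)) ∈ L.map Prod.fst) :
    Function.Injective (fun i : Fin 6 => u i.castSucc) ∧ IsCopy W H (univ.image fun i : Fin 6 => u i.castSucc) := by
  obtain ⟨x, hx, hxe⟩ := List.mem_map.mp hu
  obtain ⟨hσ, hE⟩ := hL x hx
  have hb : ∀ Q, gv H u Q ≤ 1 := gv_le H u
  have key : ∀ Q : Finset (Fin 7), (Nat.beq (gv H u Q) 1 = true ↔ H (Q.image u)) := by
    intro Q
    unfold gv
    by_cases h : H (Q.image u)
    · rw [if_pos h]; exact ⟨fun _ => h, fun _ => rfl⟩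
    · rw [if_neg h]; exact ⟨fun h' => absurd (show false = true from h') (by decide), fun h' => absurd h' h⟩
  set φ : Fin 6 → V := fun z => u (x.2 z).castSucc with hφ
  have himg : ∀ t : Finset (Fin 6), ((t.image x.2).image Fin.castSucc).image u = t.image φ := by
    intro t
    rw [image_image, image_image]
    rfl
  have hW : ∀ t ∈ powersetCard 3 (univ : Finset (Fin 6)), (H (t.image φ) ↔ t ∈ W) := by
    intro t ht
    rcases hE t ht with ⟨i, hi, e1, e2⟩ | ⟨i, hi, e1, e2⟩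
    · rw [← e2, ← himg, e1, ← key, ← congrArg Prod.fst hxe.symm]
      have e3 : bt i (codeN 10 RM (gv H u)) = gv H u (RM.getD i ∅) := bt_mkN hi fun j => hb _
      rw [e3]
    · rw [← e2, ← himg, e1, ← key, ← congrArg Prod.snd hxe.symm]
      have e3 : bt i (codeN 10 RA (gv H u)) = gv H u (RA.getD i ∅) := bt_mkN hi fun j => hb _
      rw [e3]
  have hφi : Function.Injective φ := by
    intro i j hij
    by_contra hne
    obtain ⟨t, ht, hi, hj⟩ := hcov i j hne
    have htc := h3 t ht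
    have h5 := hH _ ((hW t (mem_powersetCard.mpr ⟨subset_univ _, htc⟩)).mpr ht)
    have h6 : Set.InjOn φ t := card_image_iff.mp (by rw [h5, htc])
    exact hne (h6 hi hj hij)
  have hσi : Function.Injective x.2 := fun i j h => hσ i j h
  have hσs : Function.Surjective x.2 := Finite.surjective_of_injective hσi
  constructor
  · intro i j hij
    obtain ⟨i', rfl⟩ := hσs i
    obtain ⟨j', rfl⟩ := hσs j
    exact congrArg x.2 (hφi hij)
  · refine ⟨φ, hφi, ?_, hW⟩
    ext v
    simp only [mem_image, mem_univ, true_and]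
    constructor
    · rintro ⟨z, rfl⟩
      exact ⟨x.2 z, rfl⟩
    · rintro ⟨z, rfl⟩
      obtain ⟨z', rfl⟩ := hσs z
      exact ⟨z', rfl⟩

theorem T6_le {W : Finset (Finset (Fin 6))} (h3 : ∀ t ∈ W, t.card = 3)
    (hcov : ∀ i j : Fin 6, i ≠ j → ∃ t ∈ W, i ∈ t ∧ j ∈ t) {L : List ((ℕ × ℕ) × (Fin 6 → Fin 6))} (hL : ∀ x ∈ L, Ent W x)
    {H : Finset V → Prop} (hH : ∀ Q, H Q → Q.card = 3) (G : Finset (Finset V)) (hG : ∀ S : Finset V, S ∈ G ↔ IsCopy W H S) :
    T6 (L.map Prod.fst) H ≤ 720 * G.card := by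
  have hG6 : ∀ A ∈ G, A.card = 6 := by
    intro A hA
    obtain ⟨φ, h1, rfl, -⟩ := (hG A).mp hA
    rw [card_image_of_injective _ h1, card_univ, Fintype.card_fin]
  have h1 := tup_le (k := 6) G hG6
  refine le_trans ?_ h1
  rw [card_filter, sum6]
  unfold T6
  refine sum_le_sum fun a _ => sum_le_sum fun b _ => sum_le_sum fun c _ => sum_le_sum fun d _ => sum_le_sum fun e _ =>
    sum_le_sum fun x _ => ?_
  unfold i6
  by_cases hu : (codeN 10 RM (gv H ![a, b, c, d, e, x, a]), codeN 10 RA (gv H ![a, b, c, d, e, x, a])) ∈ L.map Prod.fst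
  · rw [if_pos hu]
    have h2 := (copy_of h3 hcov hL hH _ hu).2
    have e1 : (fun i : Fin 6 => (![a, b, c, d, e, x, a] : Fin 7 → V) i.castSucc) = ![a, b, c, d, e, x] := by
      funext i
      fin_cases i <;> rfl
    rw [e1] at h2
    rw [if_pos ((hG _).mpr h2)]
  · rw [if_neg hu]
    exact Nat.zero_le _

end

end Pool.Agent.H68.F9
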